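import Pool.Agent.H56.GN.Defs
import Pool.Agent.H34.AC.KapA

/-! # [H56 GN ACT] Homomorphisms and the two series

`nuS, deS` are built from constants, `X` and `w` with ring operations: `map_nuS`, `map_deS`: `map_sub, map_mul, map_pow, PowerSeries.map_C, PowerSeries.map_X, map_natCast,
map_intCast`. `act σ ζ` (`Pool/Agent/H34/AC/KapA.lean`) is the ring hom `(PowerSeries.rescale ζ).comp (PowerSeries.map σ)` (see `act_root` there); it fixes `C` of rational numbers and
`(C q * X)^e` for `ζ^e = 1`: `rescale ζ X = C ζ * X`, `(C q * (C ζ * X))^e = C (ζ^e) * (C q * X)^e`. (As `tq_rescale`, `Pool/Agent/H8/AW/Pt.lean`.) -/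

namespace Pool.Agent.H56.GN

open Finset Polynomial Pool.Agent.H87.SA2 Pool.Agent.H34.AC

theorem map_nuS {S T : Type*} [CommRing S] [CommRing T] (φ : S →+* T) (M : ℕ) (a : ℤ) (q e : ℕ)
    (w : PowerSeries S) : (nuS M a q e w).map φ = nuS M a q e (w.map φ) := by
  unfold nuS
  simp only [map_sub, map_mul, map_pow, PowerSeries.map_X, map_natCast,
    map_intCast]

theorem map_deS {S T : Type*} [CommRing S] [CommRing T] (φ : S →+* T) (M : ℕ) (a : ℤ) (q e : ℕ)
    (w : PowerSeries S) : (deS M a q e w).map φ = deS M a q e (w.map φ) := by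
  unfold deS
  simp only [map_mul, map_pow, PowerSeries.map_X, map_natCast,
    map_intCast]

private theorem act_hom (σ : AA ≃ₐ[ℚ] AA) (ζ : AA) (x : PowerSeries AA) :
    act σ ζ x = ((PowerSeries.rescale ζ).comp (PowerSeries.map (σ : AA →+* AA))) x := by
  ext m
  rw [coeff_act, RingHom.comp_apply, PowerSeries.coeff_rescale, PowerSeries.coeff_map]
  rfl

private theorem rescale_int (ζ : AA) (a : ℤ) (k : ℕ) :
    PowerSeries.rescale ζ (PowerSeries.C ((a : AA) ^ k)) = PowerSeries.C ((a : AA) ^ k) := by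
  have h : (PowerSeries.C (a : AA)) = ((a : ℤ) : PowerSeries AA) := by simp
  rw [map_pow, h, map_pow, map_intCast]

private theorem rescale_s {ζ : AA} {e : ℕ} (hζ : ζ ^ e = 1) (q : ℕ) :
    PowerSeries.rescale ζ ((PowerSeries.C (q : AA) * PowerSeries.X) ^ e) =
      (PowerSeries.C (q : AA) * PowerSeries.X) ^ e := by
  have h : (PowerSeries.C (q : AA)) = ((q : ℕ) : PowerSeries AA) := by simp
  have h2 : PowerSeries.rescale ζ (PowerSeries.C (q : AA)) = PowerSeries.C (q : AA) := by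
    rw [h, map_natCast]
  rw [map_pow, map_mul, PowerSeries.rescale_X, h2]
  have h1 : (PowerSeries.C (q : AA) * (PowerSeries.C ζ * PowerSeries.X)) ^ e =
      PowerSeries.C (ζ ^ e) * (PowerSeries.C (q : AA) * PowerSeries.X) ^ e := by
    rw [map_pow, ← mul_pow]
    congr 1
    ring
  rw [h1, hζ, map_one, one_mul]

private theorem rescale_sp {ζ : AA} {e : ℕ} (hζ : ζ ^ e = 1) (q k : ℕ) :
    PowerSeries.rescale ζ (((PowerSeries.C (q : AA) * PowerSeries.X) ^ e) ^ k) =
      ((PowerSeries.C (q : AA) * PowerSeries.X) ^ e) ^ k := by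
  rw [map_pow, rescale_s hζ]

theorem act_nuS (σ : AA ≃ₐ[ℚ] AA) {ζ : AA} {e : ℕ} (hζ : ζ ^ e = 1) (M : ℕ) (a : ℤ) (q : ℕ)
    (w : PowerSeries AA) : act σ ζ (nuS M a q e w) = nuS M a q e (act σ ζ w) := by
  rw [act_hom, act_hom, RingHom.comp_apply, map_nuS, RingHom.comp_apply]
  unfold nuS
  rw [map_sub, map_mul, rescale_int, rescale_sp hζ, map_pow (PowerSeries.rescale ζ)]

theorem act_deS (σ : AA ≃ₐ[ℚ] AA) {ζ : AA} {e : ℕ} (hζ : ζ ^ e = 1) (M : ℕ) (a : ℤ) (q : ℕ)
    (w : PowerSeries AA) : act σ ζ (deS M a q e w) = deS M a q e (act σ ζ w) := by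
  rw [act_hom, act_hom, RingHom.comp_apply, map_deS, RingHom.comp_apply]
  unfold deS
  rw [map_mul, map_mul, rescale_int, rescale_sp hζ]

end Pool.Agent.H56.GN
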