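import Pool.Agent.H56.GN.ROT
import Pool.Agent.H37.TE.Czr

/-! # [H56 GN ELN] The resultant with respect to `t` is not zero

`G` is irreducible in `ℤ[t][X]`, so prime (UFD), `C G` is prime in `ℤ[t][x][y]` (`Polynomial.prime_C_iff`), so irreducible; `rt` is an isomorphism
(`RingEquiv.ofBijective rt rt_bij`, `MulEquiv.irreducible_iff`): `rt (C G)` is irreducible. Its degree in `t` is positive: `rt_C` and `h2`.
`res_ne` (`Pool/Agent/H37/TE/Czr.lean`; `MvPolynomial (Fin 2) ℤ` is a UFD): it remains to see `¬ rt (C G) ∣ rt F`, i.e. (`map_dvd_iff` for the equivalence)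
`¬ C G ∣ F`. Suppose `F = C G * H`. `h.irr 1 (C G) H one_ne_zero` (`C (C 1) * F = C G * H`): either `C G = C (C g)`, so `G = C g`, `natDegree G = 0`,
contradiction with `h1`; or `H = C (C g)`, so `F = C (G * C g)` has degree `0` in `y`, but `F.natDegree ≥ n ≥ 1`: `cf3 F m 0 n ≠ 0`, because
`(topq n m F).coeff n = cf3 F m 0 n` (`topq_coeff`) is the leading coefficient of `topq n m F` (`h.tq`, `h.sq.ne_zero`), so `F.coeff n ≠ 0`. -/

namespace Pool.Agent.H56.GN

open Finset Polynomial Pool.Agent.H37.TE Pool.Agent.H98.TE Pool.Agent.H4.TP Pool.Agent.H34.AC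

theorem res_ne0 {n m : ℕ} {F : ℤ[X][X][X]} (hn : 1 ≤ n) (h : HypG n m F) {G : ℤ[X][X]}
    (hG : Irreducible G) (h1 : 1 ≤ G.natDegree) (h2 : ∃ i, 1 ≤ (G.coeff i).natDegree) :
    resultant (rt (C G)) (rt F) ≠ 0 ∧ 1 ≤ (rt (C G)).natDegree := by
  have hd : 1 ≤ (rt (C G)).natDegree := by
    obtain ⟨i, hi⟩ := h2
    exact hi.trans (rt_C G i)
  refine ⟨?_, hd⟩
  have hprime : Prime (C G : ℤ[X][X][X]) := Polynomial.prime_C_iff.2 hG.prime
  let e : ℤ[X][X][X] ≃+* (MvPolynomial (Fin 2) ℤ)[X] := RingEquiv.ofBijective rt rt_bij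
  have he : ∀ x, e x = rt x := fun x => rfl
  have hirr : Irreducible (rt (C G)) := by
    rw [← he]
    exact (MulEquiv.irreducible_iff e).2 hprime.irreducible
  refine res_ne _ _ hirr hd fun hdv => ?_
  have hdv' : C G ∣ F := by
    rw [← he, ← he] at hdv
    exact (map_dvd_iff e).1 hdv
  obtain ⟨H, hH⟩ := hdv'
  rcases h.irr 1 (C G) H one_ne_zero (by rw [C_1, C_1, one_mul]; exact hH) with ⟨g, hg⟩ | ⟨g, hg⟩
  · have h3 : G = C g := C_injective hg
    rw [h3, natDegree_C] at h1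
    omega
  · have h3 : F.natDegree = 0 := by
      rw [hH, hg, ← C_mul, natDegree_C]
    have h4 : (topq n m F).coeff n ≠ 0 := by
      have := leadingCoeff_ne_zero.2 h.sq.ne_zero
      rw [leadingCoeff, h.tq] at this
      exact this
    rw [topq_coeff, if_pos le_rfl] at h4
    apply h4
    have h5 : F.coeff n = 0 := coeff_eq_zero_of_natDegree_lt (by omega)
    unfold cf3
    rw [h5, coeff_zero, coeff_zero, Int.cast_zero]

end Pool.Agent.H56.GN
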