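import Pool.Agent.H56.GN.Defs
import Pool.Agent.H97.XU.FCG
import Pool.Agent.H97.NW.PGZ

/-! # [H56 GN GFC] An irreducible relation between `a` and `x`, with its size

`c = 2 ((d+1)(d+1)) + 1`. `evalEval a x G = Lam a x G` (`Pool.Agent.H72.ES.Lam`: inner variable at `a`, outer at `x`; unfold both:
`evalEval a x G = eval a (eval (C x) G)`; `Polynomial.evalEval`, `eval₂_evalRingHom`; compare the private `ev3_C` in
`Pool/Agent/H37/TE/Elm.lean`; or both are ring homs `ℤ[X][X] →+* ℤ` that agree on `X` and `C X`: `Polynomial.ringHom_ext'`).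
`exists_irr a x G` (`Pool/Agent/H97/NW/PGZ.lean`): `G1` irreducible, `G1 ∣ G`, `Lam a x G1 = 0`. `gelf2` (`Pool/Agent/H97/XU/FCG.lean`, `B2 d d H G`
is exactly `Bnd d H G`): `Bnd d (H ^ c) G1`.
A private lemma `rt_abs`: `q ∈ ℤ[X]`, `q ≠ 0`, `q.eval a = 0`, `∀ i, |q.coeff i| ≤ K` give `|a| ≤ K`: clear for `a = 0`; otherwise
`q = X^k q'`, `q'.coeff 0 ≠ 0` (`Polynomial.exists_eq_pow_rootMultiplicity_mul_and_not_dvd q hq 0` or `X ^ natTrailingDegree`), `q'.eval a = 0`,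
`a - 0 ∣ q'.eval a - q'.eval 0` (`Polynomial.sub_dvd_eval_sub`), so `a ∣ q'.coeff 0 = q.coeff k`, `Int.le_of_dvd` for absolute values.
If `G1.natDegree = 0`: `G1 = C p`, `p ≠ 0`, `p.eval a = 0`, so `|a| ≤ H ^ c`, contradiction. If `(G1.coeff i).natDegree = 0` for all `i`: with
`p = G1.map (evalRingHom 0)` (or `∑ i, C ((G1.coeff i).coeff 0) X^i`) `G1 = p.map C`, `p ≠ 0`, `p.eval x = evalEval a x G1 = 0`: `|x| ≤ H ^ c`,
contradiction. -/

namespace Pool.Agent.H56.GN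

open Finset Polynomial Pool.Agent.H37.TE Pool.Agent.H98.TE Pool.Agent.H4.TP

private theorem rt_abs {q : ℤ[X]} (hq : q ≠ 0) {a : ℤ} (ha : q.eval a = 0) {K : ℕ}
    (hK : ∀ i, |q.coeff i| ≤ (K : ℤ)) : a.natAbs ≤ K := by
  rcases eq_or_ne a 0 with rfl | ha0
  · simp
  obtain ⟨k, hk0, hkd⟩ : ∃ k, q.coeff k ≠ 0 ∧ ∀ j < k, q.coeff j = 0 :=
    ⟨q.natTrailingDegree, trailingCoeff_nonzero_iff_nonzero.2 hq,
      fun j hj => coeff_eq_zero_of_lt_natTrailingDegree hj⟩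
  obtain ⟨q', hq'⟩ : X ^ k ∣ q := X_pow_dvd_iff.2 hkd
  have h1 : q'.eval a = 0 := by
    rw [hq', eval_mul, eval_pow, eval_X] at ha
    exact (mul_eq_zero.1 ha).resolve_left (pow_ne_zero _ ha0)
  have h2 : q'.coeff 0 = q.coeff k := by
    rw [hq', coeff_X_pow_mul', if_pos le_rfl, Nat.sub_self]
  have h3 : a ∣ q.coeff k := by
    have h4 := sub_dvd_eval_sub a 0 q'
    rw [h1, sub_zero, zero_sub, dvd_neg, ← coeff_zero_eq_eval_zero, h2] at h4
    exact h4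
  have h4 : a.natAbs ≤ (q.coeff k).natAbs :=
    Nat.le_of_dvd (Int.natAbs_pos.2 hk0) (Int.natAbs_dvd_natAbs.2 h3)
  have h5 : ((q.coeff k).natAbs : ℤ) ≤ K := by
    rw [Int.natCast_natAbs]
    exact hK k
  omega

private theorem ev_lam (a x : ℤ) (G : ℤ[X][X]) : evalEval a x G = Pool.Agent.H72.ES.Lam a x G := by
  have h : (evalEvalRingHom a x : ℤ[X][X] →+* ℤ) = Pool.Agent.H72.ES.Lam a x := by
    refine ringHom_ext' (ringHom_ext' (Subsingleton.elim _ _) ?_) ?_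
    · simp [Pool.Agent.H72.ES.Lam]
    · simp [Pool.Agent.H72.ES.Lam]
  exact congrFun (congrArg DFunLike.coe h) G

theorem gfc (d : ℕ) : ∃ c : ℕ, 1 ≤ c ∧ ∀ (G : ℤ[X][X]) (H : ℕ), 2 ≤ H → G ≠ 0 → Bnd d H G →
    ∀ a x : ℤ, evalEval a x G = 0 → H ^ c < a.natAbs → H ^ c < x.natAbs →
    ∃ G1 : ℤ[X][X], Irreducible G1 ∧ Bnd d (H ^ c) G1 ∧ evalEval a x G1 = 0 ∧ 1 ≤ G1.natDegree ∧
      ∃ i, 1 ≤ (G1.coeff i).natDegree := by
  refine ⟨2 * ((d + 1) * (d + 1)) + 1, by omega, fun G H hH hG hB a x hax ha hx => ?_⟩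
  rw [ev_lam] at hax
  obtain ⟨G1, hirr, ⟨g', hg'⟩, hl⟩ := Pool.Agent.H97.NW.exists_irr a x G hG hax
  have hb : Bnd d (H ^ (2 * ((d + 1) * (d + 1)) + 1)) G1 :=
    Pool.Agent.H97.XU.gelf2 (n := d) (m := d) hH hB hG hg'
  rw [← ev_lam] at hl
  refine ⟨G1, hirr, hb, hl, ?_, ?_⟩
  · by_contra h0
    have h1 : G1.natDegree = 0 := by omega
    have h2 := eq_C_of_natDegree_eq_zero h1
    rw [h2, evalEval_C] at hl
    have h3 : G1.coeff 0 ≠ 0 := by
      intro h4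
      rw [h4, C_0] at h2
      exact hirr.ne_zero h2
    have h5 := rt_abs h3 hl (hb.2.2 0)
    omega
  · by_contra h0
    push Not at h0
    have h1 : ∀ i, G1.coeff i = C ((G1.coeff i).coeff 0) := fun i =>
      eq_C_of_natDegree_eq_zero (by have := h0 i; omega)
    set p : ℤ[X] := G1.map (evalRingHom 0) with hp
    have h2 : ∀ i, p.coeff i = (G1.coeff i).coeff 0 := by
      intro i
      rw [hp, coeff_map, coe_evalRingHom, coeff_zero_eq_eval_zero]
    have h3 : G1 = p.map C := by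
      ext1 i
      rw [coeff_map, h2]
      exact h1 i
    have h4 : p ≠ 0 := by
      intro h5
      rw [h5, Polynomial.map_zero] at h3
      exact hirr.ne_zero h3
    have h5 : p.eval x = 0 := by
      rw [h3, evalEval_map_C] at hl
      exact hl
    have h6 := rt_abs h4 h5 (K := H ^ (2 * ((d + 1) * (d + 1)) + 1)) fun i => by
      rw [h2]
      exact hb.2.2 i 0
    omega

end Pool.Agent.H56.GN
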