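import Pool.Agent.H56.GN.RSZ
import Pool.Agent.H56.GN.ELN
import Pool.Agent.H56.GN.GFC

/-! # [H56 GN ELM] Elimination of `t`

`B_F` a bound for the finitely many non-zero `|cf3 F j a b|` (`j ≤ m`, `a, b ≤ n`; all others vanish by `h.H`). `c1` from `gfc d`; `G1` irreducible, `Bnd d (H^c1) G1`,
`G1(a, x) = 0`. `DegF d d (C G1)` (the coefficients of `C G1`: `b = 0` only) and `|cf3 (C G1) ..| ≤ H^c1`. `R = resultant (rt (C G1)) (rt F)`: `res_ne0`; `rt_sz` for both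
(`d' = n + d`, `S = (n+d+1)^2 (B_F + 1) H^c1`), `res_sz` with `N = m + d`: `totalDegree R ≤ (m + d)(n + d)`,
`|coeff| ≤ L1 R ≤ (m+d)! ((n+d+1)^2 (B_F+1) H^c1)^(m+d) ≤ H^c` with `c = c1 + (m+d)! + ((n+d+1)^2 (B_F+1) + c1)(m+d)` (`x ≤ 2^x ≤ H^x`).
`R(x, y) = 0`: `exists_mul_add_mul_eq_C_resultant` (`natDegree (rt (C G1)) ≠ 0`): `rt (C G1) * p + rt F * q = C R`; apply `eval (MvPolynomial.C a)` and `vl · x y` (a ring
hom): `rt_eval`: `ev3 a x y F = 0`, `ev3 a x y (C G1) = evalEval a x G1 = 0` (see `ev3_C` in `Pool/Agent/H37/TE/Elm.lean`). -/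

namespace Pool.Agent.H56.GN

open Finset Polynomial Pool.Agent.H37.TE Pool.Agent.H98.TE Pool.Agent.H4.TP Pool.Agent.H34.AC
  Pool.Agent.H97.XU

private theorem elm_bound {n m : ℕ} {F : ℤ[X][X][X]} (h : DegF n m F) :
    ∃ B : ℕ, ∀ j a b, |cf3 F j a b| ≤ (B : ℤ) := by
  refine ⟨∑ p ∈ range (m + 1) ×ˢ (range (n + 1) ×ˢ range (n + 1)), (cf3 F p.1 p.2.1 p.2.2).natAbs,
    fun j a b => ?_⟩
  by_cases hp : (j, (a, b)) ∈ range (m + 1) ×ˢ (range (n + 1) ×ˢ range (n + 1))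
  · have h1 := Finset.single_le_sum
      (f := fun p : ℕ × (ℕ × ℕ) => (cf3 F p.1 p.2.1 p.2.2).natAbs)
      (fun p _ => Nat.zero_le _) hp
    rw [Int.abs_eq_natAbs]
    exact_mod_cast h1
  · have h0 : cf3 F j a b = 0 := by
      unfold cf3
      simp only [mem_product, mem_range, not_and_or, not_lt] at hp
      rcases hp with hp | hp | hp
      · exact coeff_eq_zero_of_natDegree_lt (lt_of_le_of_lt (h.deg a b) (by omega))
      · rw [h.tot a b (by omega), coeff_zero]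
      · rw [h.tot a b (by omega), coeff_zero]
    rw [h0, abs_zero]
    exact Int.natCast_nonneg _

private theorem elm_deg {d H : ℕ} {G : ℤ[X][X]} (h : Bnd d H G) :
    DegF d d (C G) ∧ ∀ j a b, |cf3 (C G) j a b| ≤ (H : ℤ) := by
  obtain ⟨h1, h2, h3⟩ := h
  refine ⟨⟨fun a b hab => ?_, fun a b => ?_⟩, fun j a b => ?_⟩
  · rcases Nat.eq_zero_or_pos b with rfl | hb
    · rw [coeff_C_zero]
      exact coeff_eq_zero_of_natDegree_lt (by omega)
    · rw [coeff_C, if_neg (by omega), coeff_zero]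
  · rcases Nat.eq_zero_or_pos b with rfl | hb
    · rw [coeff_C_zero]
      exact h2 a
    · rw [coeff_C, if_neg (by omega), coeff_zero, natDegree_zero]
      exact Nat.zero_le _
  · unfold cf3
    rcases Nat.eq_zero_or_pos b with rfl | hb
    · rw [coeff_C_zero]
      exact h3 a j
    · rw [coeff_C, if_neg (by omega), coeff_zero, coeff_zero, abs_zero]
      exact Int.natCast_nonneg _

private theorem elm_ev3_C (u x y : ℤ) (R : ℤ[X][X]) : ev3 u x y (C R) = evalEval u x R := by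
  unfold ev3
  rw [eval₂_C, coe_eval₂RingHom, ← eval₂_evalRingHom]
  congr 1

private theorem elm_pow {H : ℕ} (hH : 2 ≤ H) (x : ℕ) : x ≤ H ^ x :=
  (Nat.lt_two_pow_self).le.trans (Nat.pow_le_pow_left hH x)

theorem elim_t {n m : ℕ} {F : ℤ[X][X][X]} (hn : 1 ≤ n) (h : HypG n m F) (d : ℕ) :
    ∃ c : ℕ, 1 ≤ c ∧ ∀ H : ℕ, 2 ≤ H → ∀ G : ℤ[X][X], G ≠ 0 → Bnd d H G → ∀ a x y : ℤ,
      evalEval a x G = 0 → ev3 a x y F = 0 → H ^ c < a.natAbs → H ^ c < x.natAbs →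
      ∃ R : MvPolynomial (Fin 2) ℤ, R ≠ 0 ∧ R.totalDegree ≤ (m + d) * (n + d) ∧
        (∀ e, |R.coeff e| ≤ ((H ^ c : ℕ) : ℤ)) ∧ vl R x y = 0 := by
  obtain ⟨c1, hc1, hg⟩ := gfc d
  obtain ⟨B, hB⟩ := elm_bound h.H
  refine ⟨c1 + (m + d).factorial + ((n + d + 1) ^ 2 * (B + 1) + c1) * (m + d), by omega, ?_⟩
  intro H hH G hG0 hG a x y hG1 hF ha hx
  have hle : H ^ c1 ≤ H ^ (c1 + (m + d).factorial + ((n + d + 1) ^ 2 * (B + 1) + c1) * (m + d)) :=
    Nat.pow_le_pow_right (by omega) (by omega)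
  obtain ⟨G1, hirr, hb, hev, hd1, hd2⟩ := hg G H hH hG0 hG a x hG1 (hle.trans_lt ha) (hle.trans_lt hx)
  obtain ⟨hR0, hpos⟩ := res_ne0 hn h hirr hd1 hd2
  obtain ⟨hD, hcf⟩ := elm_deg hb
  have hszG := rt_sz hD hcf
  have hszF := rt_sz h.H hB
  have hH1 : 1 ≤ H ^ c1 := Nat.one_le_pow _ _ (by omega)
  have hK1 : 1 ≤ (n + d + 1) ^ 2 * (B + 1) := Nat.mul_pos (by positivity) (by omega)
  have hsz := res_sz (f := rt (C G1)) (g := rt F) (N := m + d) (d := n + d)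
    (S := (n + d + 1) ^ 2 * (B + 1) * H ^ c1) (by have := hszG.1; have := hszF.1; omega)
    (Nat.mul_pos hK1 hH1)
    (fun j => ⟨(hszG.2 j).1.trans (by omega), (hszG.2 j).2.trans ?_⟩)
    (fun j => ⟨(hszF.2 j).1.trans (by omega), (hszF.2 j).2.trans ?_⟩)
  · refine ⟨resultant (rt (C G1)) (rt F), hR0, hsz.1, fun e => ?_, ?_⟩
    · have h1 := (coeff_le_L1 (resultant (rt (C G1)) (rt F)) e).trans hsz.2
      have h2 : (m + d).factorial * ((n + d + 1) ^ 2 * (B + 1) * H ^ c1) ^ (m + d) ≤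
          H ^ (c1 + (m + d).factorial + ((n + d + 1) ^ 2 * (B + 1) + c1) * (m + d)) := by
        have h3 : (n + d + 1) ^ 2 * (B + 1) * H ^ c1 ≤ H ^ ((n + d + 1) ^ 2 * (B + 1) + c1) := by
          rw [pow_add]
          exact Nat.mul_le_mul_right _ (elm_pow hH _)
        have h4 : ((n + d + 1) ^ 2 * (B + 1) * H ^ c1) ^ (m + d) ≤
            H ^ (((n + d + 1) ^ 2 * (B + 1) + c1) * (m + d)) := by
          rw [pow_mul]
          exact Nat.pow_le_pow_left h3 _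
        calc (m + d).factorial * ((n + d + 1) ^ 2 * (B + 1) * H ^ c1) ^ (m + d)
            ≤ H ^ (m + d).factorial * H ^ (((n + d + 1) ^ 2 * (B + 1) + c1) * (m + d)) :=
              Nat.mul_le_mul (elm_pow hH _) h4
          _ = H ^ ((m + d).factorial + ((n + d + 1) ^ 2 * (B + 1) + c1) * (m + d)) := by rw [pow_add]
          _ ≤ _ := Nat.pow_le_pow_right (by omega) (by omega)
      rw [Int.abs_eq_natAbs]
      exact_mod_cast h1.trans h2
    · obtain ⟨p, q, -, -, hpq⟩ := exists_mul_add_mul_eq_C_resultant (rt (C G1)) (rt F) le_rfl le_rfl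
        (Or.inl (by omega))
      have h1 := congrArg (fun P => vl (P.eval (MvPolynomial.C a)) x y) hpq
      have hadd : ∀ P Q : MvPolynomial (Fin 2) ℤ, vl (P + Q) x y = vl P x y + vl Q x y :=
        fun P Q => MvPolynomial.eval₂_add _ _
      have hmul : ∀ P Q : MvPolynomial (Fin 2) ℤ, vl (P * Q) x y = vl P x y * vl Q x y :=
        fun P Q => MvPolynomial.eval₂_mul _ _
      simp only [eval_add, eval_mul, eval_C] at h1
      rw [hadd, hmul, hmul, rt_eval, rt_eval, elm_ev3_C, hev, hF, zero_mul, zero_mul, add_zero] at h1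
      exact h1.symm
  · calc (d + 1) ^ 2 * H ^ c1 ≤ (n + d + 1) ^ 2 * (B + 1) * H ^ c1 := by
          refine Nat.mul_le_mul_right _ ?_
          calc (d + 1) ^ 2 ≤ (n + d + 1) ^ 2 := Nat.pow_le_pow_left (by omega) 2
            _ ≤ (n + d + 1) ^ 2 * (B + 1) := Nat.le_mul_of_pos_right _ (by omega)
      _ ≤ _ := le_rfl
  · calc (n + 1) ^ 2 * B ≤ (n + d + 1) ^ 2 * (B + 1) :=
          Nat.mul_le_mul (Nat.pow_le_pow_left (by omega) 2) (by omega)
      _ ≤ (n + d + 1) ^ 2 * (B + 1) * H ^ c1 := Nat.le_mul_of_pos_right _ hH1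

end Pool.Agent.H56.GN
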