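import Pool.Agent.H4.SX.FCX

/-! # [H56 GN FCP] A point of a reducible curve lies on an irreducible factor of small height

As `fac_point` (`Pool/Agent/H4/SX/FCX.lean`; copy its proof and its private lemmas), without the hypothesis that `G` contains `y^n`, but with `|x|` larger than the
bound. `p0 ∈ ℤ[x][y]` irreducible, `p0 ∣ toB G`, `Lam x y p0 = 0` (`exists_irr`). The bound `L2 p0 ≤ H ^ (E + 1)` from `fct n` (hypotheses: `p0.natDegree ≤ n` and `XD n p0`; both from
`p0 ∣ toB G ≠ 0`, `toB G` of degree `≤ n` in both variables: `toB_coeff`, `natDegree_le_of_dvd`, `xd_of_dvd`); `(toB G).natDegree ≤ n` replaces the equality there.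
`1 ≤ p0.natDegree`: otherwise `p0 = C p`, `p ≠ 0`, `p.eval x = 0`, all `|p.coeff i| ≤ L1 p = L2 p0 ≤ H ^ (E + 1)`, so
`|x| ≤ H ^ (E + 1)` (the lowest non-zero coefficient of `p` is divisible by `x`, unless `x = 0`), contradiction. Then `irr_Q`. -/

namespace Pool.Agent.H56.GN

open Finset Polynomial Pool.Agent.H34.AC Pool.Agent.H97.NW Pool.Agent.H72.ES H4AR

private theorem fcp_tot {n : ℕ} {G : MvPolynomial (Fin 2) ℤ} (h : G.totalDegree ≤ n)
    (e : Fin 2 →₀ ℕ) (he : G.coeff e ≠ 0) : e 0 + e 1 ≤ n := by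
  have h1 := MvPolynomial.le_totalDegree (MvPolynomial.mem_support_iff.2 he)
  rw [Finsupp.sum_fintype _ _ (fun _ => rfl), Fin.sum_univ_two] at h1
  exact h1.trans h

/-- the sum of the coefficients -/
private theorem fcp_l1 {n H : ℕ} {G : MvPolynomial (Fin 2) ℤ} (h : G.totalDegree ≤ n)
    (hH : ∀ e, |G.coeff e| ≤ (H : ℤ)) : l1 G ≤ ((n + 1) ^ 2 * H : ℕ) := by
  classical
  unfold l1
  have h1 : G.support ⊆ (range (n + 1) ×ˢ range (n + 1)).image
      (fun x => (Finsupp.single 0 x.1 + Finsupp.single 1 x.2 : Fin 2 →₀ ℕ)) := by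
    intro e he
    have h2 := fcp_tot h e (MvPolynomial.mem_support_iff.1 he)
    rw [mem_image]
    refine ⟨(e 0, e 1), ?_, ?_⟩
    · rw [mem_product, mem_range, mem_range]
      constructor <;> simp only <;> omega
    · ext v
      fin_cases v <;> simp
  have h2 : G.support.card ≤ (n + 1) ^ 2 := by
    refine (card_le_card h1).trans (card_image_le.trans ?_)
    rw [card_product, card_range, sq]
  calc ∑ e ∈ G.support, |((MvPolynomial.coeff e G : ℤ) : ℝ)| ≤ ∑ e ∈ G.support, (H : ℝ) := by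
        refine sum_le_sum fun e _ => ?_
        exact_mod_cast hH e
    _ = G.support.card * H := by rw [sum_const, nsmul_eq_mul]
    _ ≤ ((n + 1) ^ 2 * H : ℕ) := by
        push_cast
        refine mul_le_mul_of_nonneg_right ?_ (Nat.cast_nonneg H)
        exact_mod_cast h2

/-- an integer root divides a non-zero coefficient -/
private theorem fcp_low (x : ℤ) (hx : x ≠ 0) : ∀ (N : ℕ) (p : ℤ[X]), p.natDegree ≤ N → p ≠ 0 →
    p.eval x = 0 → ∃ i, p.coeff i ≠ 0 ∧ x ∣ p.coeff i := by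
  intro N
  induction N with
  | zero =>
    intro p hN hp0 hx0
    exfalso
    have h1 : p = C (p.coeff 0) := eq_C_of_natDegree_le_zero hN
    rw [h1, eval_C] at hx0
    rw [hx0, map_zero] at h1
    exact hp0 h1
  | succ N ih =>
    intro p hN hp0 hx0
    have h1 := divX_mul_X_add p
    have h2 : (divX p).eval x * x + p.coeff 0 = 0 := by
      have := congrArg (eval x) h1
      rw [eval_add, eval_mul, eval_X, eval_C, hx0] at this
      exact this
    by_cases h0 : p.coeff 0 = 0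
    · rw [h0, add_zero] at h2
      have h3 : (divX p).eval x = 0 := (mul_eq_zero.1 h2).resolve_right hx
      have h4 : divX p ≠ 0 := by
        intro h5
        rw [h5, h0, zero_mul, map_zero, add_zero] at h1
        exact hp0 h1.symm
      have h5 : (divX p).natDegree ≤ N := by
        rw [natDegree_divX_eq_natDegree_tsub_one]
        omega
      obtain ⟨i, hi1, hi2⟩ := ih (divX p) h5 h4 h3
      rw [coeff_divX] at hi1 hi2
      exact ⟨_, hi1, hi2⟩
    · refine ⟨0, h0, ?_⟩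
      have h3 : p.coeff 0 = x * (-(divX p).eval x) := by linear_combination h2
      rw [h3]
      exact dvd_mul_right _ _

theorem fac_pt (n : ℕ) (hn : 1 ≤ n) : ∃ c : ℕ, 1 ≤ c ∧ ∀ (G : MvPolynomial (Fin 2) ℤ) (H : ℕ), 2 ≤ H →
    G ≠ 0 → G.totalDegree ≤ n → (∀ e, |G.coeff e| ≤ (H : ℤ)) →
    ∀ x y : ℤ, vl G x y = 0 → H ^ c < x.natAbs → ∃ F : MvPolynomial (Fin 2) ℤ, F ∣ G ∧
      Irreducible (MvPolynomial.map (Int.castRingHom ℚ) F) ∧ F.totalDegree ≤ n ∧
      (∃ e ∈ F.support, 1 ≤ e 1) ∧ vl F x y = 0 ∧ ∀ e, |F.coeff e| ≤ ((H ^ c : ℕ) : ℤ) := by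
  obtain ⟨K, hK1, hK⟩ := fct n
  obtain ⟨E, hE⟩ : ∃ E : ℕ, E = ⌈Real.exp (K + n * K)⌉₊ * (n + 1) ^ 2 := ⟨_, rfl⟩
  refine ⟨E + 1, by omega, fun G H hH2 hG0 hGn hGH x y h0 hxH => ?_⟩
  have hvl : ∀ P : MvPolynomial (Fin 2) ℤ, vl P x y = Lam x y (toB P) := by
    intro P
    rw [toB_Lam]
    unfold vl
    have h1 : Int.castRingHom ℤ = RingHom.id ℤ := Subsingleton.elim _ _
    rw [h1]
    rfl
  have hB0 : toB G ≠ 0 := by
    intro h'
    exact hG0 ((map_eq_zero_iff _ (AlgEquiv.injective _)).1 h')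
  obtain ⟨p0, hp0, hdvd, hL⟩ := exists_irr x y (toB G) hB0 (by rw [← hvl, h0])
  obtain ⟨F, hF⟩ : ∃ F, F = toB.symm p0 := ⟨_, rfl⟩
  have hFB : toB F = p0 := by rw [hF]; exact AlgEquiv.apply_symm_apply _ _
  have hFG : F ∣ G := by
    have h1 := map_dvd toB.symm hdvd
    rw [AlgEquiv.symm_apply_apply] at h1
    rw [hF]
    exact h1
  obtain ⟨R, hR⟩ := hFG
  have hF0 : F ≠ 0 := by
    rintro rfl
    rw [zero_mul] at hR
    exact hG0 hR
  have hR0 : R ≠ 0 := by
    rintro rfl
    rw [mul_zero] at hR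
    exact hG0 hR
  have htot : F.totalDegree + R.totalDegree ≤ n := by
    rw [← MvPolynomial.totalDegree_mul_of_isDomain hF0 hR0, ← hR]
    exact hGn
  -- the degree of `toB G` in the second variable
  have hGd : (toB G).natDegree ≤ n := by
    rw [natDegree_le_iff_coeff_eq_zero]
    intro N hN
    ext i
    rw [toB_coeff, coeff_zero]
    by_contra h'
    have h1 := fcp_tot hGn _ h'
    simp at h1
    omega
  have hpd : p0.natDegree ≤ n := (natDegree_le_of_dvd hdvd hB0).trans hGd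
  have hXG : XD n (toB G) := by
    intro j
    rw [natDegree_le_iff_coeff_eq_zero]
    intro N hN
    rw [toB_coeff]
    by_contra h'
    have h1 := fcp_tot hGn _ h'
    simp at h1
    omega
  have hpX : XD n p0 := xd_of_dvd hB0 hdvd hXG
  have hf := hK p0 (toB G) 1 hp0 hpd hpX hB0 (by rw [pow_one]; exact hdvd)
  have hL2p : 1 ≤ L2 p0 := fct_one_le_L2 hp0.ne_zero
  have hl1 := fcp_l1 hGn hGH
  have hl1p : 0 < l1 G := by
    rw [← toB_L2]
    have := fct_one_le_L2 hB0
    linarith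
  have hL2 : L2 p0 ≤ ((H ^ (E + 1) : ℕ) : ℝ) := by
    rw [toB_L2, Nat.cast_one, one_mul, one_mul] at hf
    have hdK : ((toB G).natDegree : ℝ) * K ≤ n * K :=
      mul_le_mul_of_nonneg_right (by exact_mod_cast hGd) (by linarith)
    have h1 : Real.log (L2 p0) ≤ Real.log (Real.exp (K + n * K) * ((n + 1) ^ 2 * H : ℕ)) := by
      have h2 := Real.log_le_log hl1p hl1
      have h3 : (0 : ℝ) < ((n + 1) ^ 2 * H : ℕ) := lt_of_lt_of_le hl1p hl1
      rw [Real.log_mul (Real.exp_pos _).ne' h3.ne', Real.log_exp]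
      linarith
    have h3 : (0 : ℝ) < ((n + 1) ^ 2 * H : ℕ) := lt_of_lt_of_le hl1p hl1
    have h4 := (Real.log_le_log_iff (by linarith) (by positivity)).1 h1
    refine h4.trans ?_
    have h5 : Real.exp (K + n * K) * ((n + 1) ^ 2 * H : ℕ) ≤ ((E * H : ℕ) : ℝ) := by
      rw [hE]
      push_cast
      rw [mul_assoc (⌈Real.exp (K + n * K)⌉₊ : ℝ)]
      exact mul_le_mul_of_nonneg_right (Nat.le_ceil _) (by positivity)
    refine h5.trans ?_
    have h6 : E * H ≤ H ^ (E + 1) := by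
      rw [pow_succ]
      refine Nat.mul_le_mul_right _ ?_
      exact (Nat.lt_two_pow_self).le.trans (Nat.pow_le_pow_left hH2 E)
    exact_mod_cast h6
  have hcf : ∀ e, |F.coeff e| ≤ ((H ^ (E + 1) : ℕ) : ℤ) := by
    intro e
    by_cases hm : e ∈ F.support
    · have h1 : |((F.coeff e : ℤ) : ℝ)| ≤ l1 F :=
        single_le_sum (f := fun e => |((MvPolynomial.coeff e F : ℤ) : ℝ)|)
          (fun _ _ => abs_nonneg _) hm
      rw [← toB_L2, hFB] at h1
      have h2 := h1.trans hL2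
      exact_mod_cast h2
    · rw [MvPolynomial.notMem_support_iff.1 hm, abs_zero]
      exact Int.natCast_nonneg _
  have hnd : 1 ≤ p0.natDegree := by
    by_contra hcon
    have h1 : p0 = C (p0.coeff 0) := eq_C_of_natDegree_le_zero (by omega)
    have hx0 : x ≠ 0 := by
      rintro rfl
      simp at hxH
    have h2 : (p0.coeff 0).eval x = 0 := by
      rw [h1] at hL
      simpa [Lam] using hL
    have h3 : p0.coeff 0 ≠ 0 := by
      intro h4
      rw [h4, map_zero] at h1
      exact hp0.ne_zero h1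
    obtain ⟨i, hi1, hi2⟩ := fcp_low x hx0 _ (p0.coeff 0) le_rfl h3 h2
    rw [← hFB, toB_coeff] at hi1 hi2
    have h4 := hcf (Finsupp.single 0 i + Finsupp.single 1 0)
    have h5 : x.natAbs ≤ (F.coeff (Finsupp.single 0 i + Finsupp.single 1 0)).natAbs :=
      Nat.le_of_dvd (Int.natAbs_pos.2 hi1) (Int.natAbs_dvd_natAbs.2 hi2)
    rw [Int.abs_eq_natAbs] at h4
    have h6 : (F.coeff (Finsupp.single 0 i + Finsupp.single 1 0)).natAbs ≤ H ^ (E + 1) := by
      exact_mod_cast h4
    omega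
  refine ⟨F, ⟨R, hR⟩, ?_, by omega, ?_, ?_, hcf⟩
  · rw [hF]
    exact irr_Q p0 hp0 hnd
  · have h1 : p0.coeff p0.natDegree ≠ 0 := by
      rw [coeff_natDegree]
      exact leadingCoeff_ne_zero.2 hp0.ne_zero
    obtain ⟨i, hi⟩ : ∃ i, (p0.coeff p0.natDegree).coeff i ≠ 0 := by
      by_contra hcon
      push Not at hcon
      exact h1 (Polynomial.ext fun i => by rw [hcon i, coeff_zero])
    rw [← hFB, toB_coeff, hFB] at hi
    refine ⟨_, MvPolynomial.mem_support_iff.2 hi, ?_⟩
    simpa using hnd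
  · rw [hvl, hFB, hL]

end Pool.Agent.H56.GN
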