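import Pool.Agent.H56.GN.Defs
import Pool.Agent.H98.TE.TRP

/-! # [H56 GN NER] Points of the surface near a simple root of the top form are very near

`top_small h.H` (`Pool/Agent/H98/TE/TRP.lean`, real `a, x, y`): `|(topm n m F).eval (y / x)| ≤ C2 ρ`. `near_one (topm n m F) hθ ((topm_simple h.sq).2 θ hθ)`:
`|Z - θ| < r → |Z - θ| ≤ c |topm(Z)|`. Put `c1 = r / 2`, `C = c C2`. `ev3` over `ℝ` from `ev3` over `ℤ`: both are sums by `ev3_sum h.H`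
(`Pool/Agent/H98/TE/FAM.lean`), so `ev3 (a : ℝ) x y F = ((ev3 (a : ℤ) x y F : ℤ) : ℝ)` (`push_cast`). `|y| ≤ |x|` over `ℝ`: `exact_mod_cast`. -/

namespace Pool.Agent.H56.GN

open Finset Polynomial Pool.Agent.H37.TE Pool.Agent.H98.TE Pool.Agent.H4.TP

theorem ner {n m : ℕ} {F : ℤ[X][X][X]} (h : HypG n m F) {θ : ℝ} (hθ : (topm n m F).eval θ = 0) :
    ∃ c1 C : ℝ, 0 < c1 ∧ 0 ≤ C ∧ ∀ (a : ℕ) (x y : ℤ) (ρ : ℝ), 1 ≤ a → x ≠ 0 → |y| ≤ |x| →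
      ev3 (a : ℤ) x y F = 0 → |(y : ℝ) / x - θ| ≤ c1 → 1 / (a : ℝ) ≤ ρ → 1 / |(x : ℝ)| ≤ ρ → ρ ≤ 1 →
      |(y : ℝ) / x - θ| ≤ C * ρ := by
  obtain ⟨C2, hC2, h2⟩ := top_small h.H
  obtain ⟨r, c, hr, hc, h3⟩ := near_one (topm n m F) hθ ((topm_simple h.sq).2 θ hθ)
  refine ⟨r / 2, c * C2, by positivity, by positivity, fun a x y ρ ha hx hyx hev hn h4 h5 h6 => ?_⟩
  have e1 : ev3 (a : ℝ) (x : ℝ) (y : ℝ) F = ((ev3 (a : ℤ) x y F : ℤ) : ℝ) := by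
    rw [H98.TE.ev3_sum h.H, H98.TE.ev3_sum h.H]
    push_cast
    rfl
  have ha' : (0 : ℝ) < a := by exact_mod_cast ha
  have hx' : (x : ℝ) ≠ 0 := by exact_mod_cast hx
  have hyx' : |(y : ℝ)| ≤ |(x : ℝ)| := by exact_mod_cast hyx
  have h7 := h2 a x y ρ ha' hx' hyx' (by rw [e1, hev, Int.cast_zero]) h4 h5 h6
  calc |(y : ℝ) / x - θ| ≤ c * |(topm n m F).eval ((y : ℝ) / x)| := h3 _ (by linarith)
    _ ≤ c * (C2 * ρ) := by gcongr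
    _ = c * C2 * ρ := by ring

end Pool.Agent.H56.GN
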