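import Mathlib

/-! # [H56 GN NUM] The numbers

`ε = 1 / (2 (E Q + 1))`, `H = ⌈a^ε⌉₊ + 1`. For `a ≥ 1`: `1 ≤ a^ε`, `H ≤ a^ε + 2 ≤ 3 a^ε` (`Nat.ceil_lt_add_one`), so
`(H^E K)^Q ≤ 3^(E Q) K^Q a^(ε E Q) ≤ 3^(E Q) K^Q a^(1/2)` (`Real.rpow_natCast`, `Real.rpow_mul`, `ε E Q ≤ 1/2`) `< a` as soon as
`(3^(E Q) K^Q)^2 < a`: `A0 = (3^(E Q) K^Q)^2 + 1`, `a = a^(1/2) a^(1/2)` (or `Real.sqrt a`). `2 ≤ H` as `a^ε > 0` gives `⌈a^ε⌉₊ ≥ 1`. -/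

namespace Pool.Agent.H56.GN

theorem num (E Q K : ℕ) : ∃ ε : ℝ, 0 < ε ∧ ∃ A0 : ℕ, ∀ a : ℕ, A0 ≤ a →
    ∃ H : ℕ, 2 ≤ H ∧ (a : ℝ) ^ ε ≤ H ∧ (H ^ E * K) ^ Q < a := by
  set D : ℕ := 3 ^ (E * Q) * K ^ Q with hD
  refine ⟨1 / (2 * ((E : ℝ) * Q + 1)), by positivity, D ^ 2 + 1, fun a ha => ?_⟩
  set ε : ℝ := 1 / (2 * ((E : ℝ) * Q + 1)) with hε
  have ha1 : (1 : ℝ) ≤ a := by
    have : 1 ≤ a := by omega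
    exact_mod_cast this
  have ha0 : (0 : ℝ) < a := by linarith
  have hε0 : 0 < ε := by positivity
  have he1 : (1 : ℝ) ≤ (a : ℝ) ^ ε := Real.one_le_rpow ha1 hε0.le
  have he0 : (0 : ℝ) < (a : ℝ) ^ ε := by linarith
  refine ⟨⌈(a : ℝ) ^ ε⌉₊ + 1, ?_, ?_, ?_⟩
  · have : 0 < ⌈(a : ℝ) ^ ε⌉₊ := Nat.ceil_pos.2 he0
    omega
  · push_cast
    linarith [Nat.le_ceil ((a : ℝ) ^ ε)]
  · have hH : (((⌈(a : ℝ) ^ ε⌉₊ + 1 : ℕ)) : ℝ) ≤ 3 * (a : ℝ) ^ ε := by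
      push_cast
      have := (Nat.ceil_lt_add_one he0.le).le
      linarith
    have h1 : ((((⌈(a : ℝ) ^ ε⌉₊ + 1) ^ E * K) ^ Q : ℕ) : ℝ) ≤ D * (a : ℝ) ^ (1 / 2 : ℝ) := by
      have h2 : (((((⌈(a : ℝ) ^ ε⌉₊ + 1 : ℕ)) : ℝ) ^ E * K) ^ Q : ℝ) ≤ ((3 * (a : ℝ) ^ ε) ^ E * K) ^ Q := by
        gcongr
      have h3 : (((3 * (a : ℝ) ^ ε) ^ E * K) ^ Q : ℝ) = D * ((a : ℝ) ^ ε) ^ (E * Q) := by
        rw [hD]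
        push_cast
        rw [mul_pow, mul_pow, mul_pow, ← pow_mul, ← pow_mul]
        ring
      have h4 : ((a : ℝ) ^ ε) ^ (E * Q) ≤ (a : ℝ) ^ (1 / 2 : ℝ) := by
        rw [← Real.rpow_natCast, ← Real.rpow_mul ha0.le]
        apply Real.rpow_le_rpow_of_exponent_le ha1
        rw [hε]
        push_cast
        rw [one_div, inv_mul_le_iff₀ (by positivity)]
        nlinarith [Nat.cast_nonneg (α := ℝ) E, Nat.cast_nonneg (α := ℝ) Q]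
      push_cast at h2 ⊢
      rw [h3] at h2
      exact h2.trans (mul_le_mul_of_nonneg_left h4 (Nat.cast_nonneg _))
    have h5 : (D : ℝ) < (a : ℝ) ^ (1 / 2 : ℝ) := by
      rw [← Real.sqrt_eq_rpow]
      apply Real.lt_sqrt_of_sq_lt
      have : D ^ 2 < a := by omega
      exact_mod_cast this
    have h6 : (a : ℝ) ^ (1 / 2 : ℝ) * (a : ℝ) ^ (1 / 2 : ℝ) = a := by
      rw [← Real.sqrt_eq_rpow]
      exact Real.mul_self_sqrt ha0.le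
    have h7 : ((((⌈(a : ℝ) ^ ε⌉₊ + 1) ^ E * K) ^ Q : ℕ) : ℝ) < a := by
      have h8 : (0 : ℝ) < (a : ℝ) ^ (1 / 2 : ℝ) := by positivity
      calc ((((⌈(a : ℝ) ^ ε⌉₊ + 1) ^ E * K) ^ Q : ℕ) : ℝ) ≤ D * (a : ℝ) ^ (1 / 2 : ℝ) := h1
        _ < (a : ℝ) ^ (1 / 2 : ℝ) * (a : ℝ) ^ (1 / 2 : ℝ) := by
            exact mul_lt_mul_of_pos_right h5 h8
        _ = a := h6
    exact_mod_cast h7

end Pool.Agent.H56.GN
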