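import Pool.Agent.H56.GN.Defs
import Pool.Agent.H97.TU.CEN

/-! # [H56 GN QTH] The integral minimal polynomial of `θ`

`deg_le`: `topq n m F ≠ 0` (`h.sq.ne_zero`), `aeval θ (topq n m F) = (topm n m F).eval θ = 0` (`topm_eq`), `IsAlgebraic`, `minpoly.dvd`,
`natDegree_le_of_dvd`, `h.tq`.
`exists_q`: `p = minpoly ℚ θ` irreducible of degree `r ≥ 1`. Clear denominators: `q ∈ ℤ[X]`, `q.map (Int.castRingHom ℚ) = C N * p`, `N ≠ 0`
(`IsLocalization.integerNormalization (nonZeroDivisors ℤ) p`, or `Pool/Agent/H97/XU/FCG.lean`): associated to `p`, so irreducible, of the same degree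
(`natDegree_map_eq_of_injective`, `natDegree_C_mul`), and `aeval θ q = 0`. `cenU_monic`: monic of degree `r`; `cenU_rel` (`(cenU r q).comp (C (q.coeff r) * X) = C _ * q`):
`aeval (q.coeff r * θ) (cenU r q) = 0` (as in `rt_cen`, `Pool/Agent/H8/TM/MXB.lean`, with `K = ℂ`, `θ : ℂ`: `aeval (θ : ℂ) q = 0` from `aeval θ q = 0`
by `Complex.ofReal`, `Polynomial.aeval_algebraMap_apply` or `hom_eval₂`). `q.coeff r ≠ 0`. `B`: the complex roots of the monic `cenU r q` are finitely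
many: `B` = `1 + |q.coeff r|.toNat + ∑ over (roots) ⌈‖z‖⌉₊` (`Polynomial.mem_roots`, `Finset.single_le_sum`). -/

namespace Pool.Agent.H56.GN

open Finset Polynomial Pool.Agent.H37.TE Pool.Agent.H98.TE Pool.Agent.H4.TP Pool.Agent.H97.TU

theorem deg_le {n m : ℕ} {F : ℤ[X][X][X]} (h : HypG n m F) {θ : ℝ} (hθ : (topm n m F).eval θ = 0) :
    IsIntegral ℚ θ ∧ (minpoly ℚ θ).natDegree ≤ n := by
  have h0 : topq n m F ≠ 0 := h.sq.ne_zero
  have h1 : aeval θ (topq n m F) = 0 := by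
    rw [topm_eq, eval_map_algebraMap] at hθ
    exact hθ
  have h2 : IsIntegral ℚ θ := IsAlgebraic.isIntegral ⟨_, h0, h1⟩
  exact ⟨h2, (natDegree_le_of_dvd (minpoly.dvd ℚ θ h1) h0).trans_eq h.tq⟩

theorem exists_q (θ : ℝ) (hθ : IsIntegral ℚ θ) : ∃ (q : ℤ[X]) (B : ℕ),
    q.natDegree = (minpoly ℚ θ).natDegree ∧ Irreducible (q.map (Int.castRingHom ℚ)) ∧
      Tht q.natDegree (cenU q.natDegree q) (q.coeff q.natDegree) θ B := by
  classical
  have hirr := minpoly.irreducible hθ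
  have hpos := minpoly.natDegree_pos hθ
  obtain ⟨q, N, hN, hq⟩ : ∃ (q : ℤ[X]) (N : ℤ), N ≠ 0 ∧
      q.map (Int.castRingHom ℚ) = C (N : ℚ) * minpoly ℚ θ := by
    obtain ⟨b, hb0, hb⟩ := IsLocalization.integerNormalization_spec (nonZeroDivisors ℤ)
      (minpoly ℚ θ)
    refine ⟨IsLocalization.integerNormalization (nonZeroDivisors ℤ) (minpoly ℚ θ), b,
      nonZeroDivisors.ne_zero hb0, ?_⟩
    have h1 : ((b • minpoly ℚ θ : ℚ[X])) = C (b : ℚ) * minpoly ℚ θ := by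
      rw [zsmul_eq_mul]
      simp
    rw [← h1]
    exact hb
  have hNq : (N : ℚ) ≠ 0 := by exact_mod_cast hN
  have hdeg : q.natDegree = (minpoly ℚ θ).natDegree := by
    have h1 : (q.map (Int.castRingHom ℚ)).natDegree = q.natDegree :=
      natDegree_map_eq_of_injective (f := Int.castRingHom ℚ) Int.cast_injective q
    rw [← h1, hq, natDegree_C_mul hNq]
  have hr : 1 ≤ q.natDegree := by
    rw [hdeg]
    exact hpos
  have hirrq : Irreducible (q.map (Int.castRingHom ℚ)) := by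
    rw [hq]
    have hu : IsUnit (C (N : ℚ)) := isUnit_C.2 (isUnit_iff_ne_zero.2 hNq)
    exact (associated_unit_mul_left (minpoly ℚ θ) _ hu).irreducible_iff.2 hirr
  have hroot : aeval θ q = 0 := by
    have h1 : aeval θ (q.map (algebraMap ℤ ℚ)) = aeval θ q := aeval_map_algebraMap ℚ θ q
    rw [← h1]
    have h2 : q.map (algebraMap ℤ ℚ) = C (N : ℚ) * minpoly ℚ θ := hq
    rw [h2, map_mul, minpoly.aeval, mul_zero]
  have hrootC : aeval (θ : ℂ) q = 0 := by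
    have h1 := aeval_algebraMap_apply ℂ θ q
    rw [hroot, map_zero] at h1
    exact h1
  have hlc : q.coeff q.natDegree ≠ 0 := by
    have h1 : q ≠ 0 := by
      intro h0
      rw [h0, natDegree_zero] at hr
      omega
    exact leadingCoeff_ne_zero.2 h1
  obtain ⟨hm, hnd⟩ := cenU_monic hr q
  obtain ⟨g, hg⟩ : ∃ g, g = cenU q.natDegree q := ⟨_, rfl⟩
  obtain ⟨R, hR⟩ : ∃ R : Finset ℂ, R = (g.map (algebraMap ℤ ℂ)).roots.toFinset := ⟨_, rfl⟩
  refine ⟨q, 1 + (q.coeff q.natDegree).natAbs + ∑ z ∈ R, ⌈‖z‖⌉₊, hdeg, hirrq,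
    ⟨hm, hnd, hlc, ?_, ?_, ?_, ?_⟩⟩
  · rw [Int.abs_eq_natAbs]
    push_cast
    have : (0 : ℤ) ≤ ∑ z ∈ R, (⌈‖z‖⌉₊ : ℤ) := Finset.sum_nonneg fun _ _ => Int.natCast_nonneg _
    linarith
  · omega
  · have h2 := congrArg (fun p => aeval (θ : ℂ) p) (cenU_rel hr rfl)
    simp only [aeval_comp, map_mul, aeval_C, aeval_X, hrootC, mul_zero] at h2
    exact h2
  · intro z hz
    have hz1 : z ∈ R := by
      rw [hR, Multiset.mem_toFinset, mem_roots]
      · show eval z (g.map (algebraMap ℤ ℂ)) = 0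
        rw [eval_map_algebraMap, hg]
        exact hz
      · rw [hg]
        exact (hm.map _).ne_zero
    have h1 : ⌈‖z‖⌉₊ ≤ ∑ z ∈ R, ⌈‖z‖⌉₊ :=
      Finset.single_le_sum (f := fun z : ℂ => ⌈‖z‖⌉₊) (fun _ _ => Nat.zero_le _) hz1
    have h2 : ‖z‖ ≤ (⌈‖z‖⌉₊ : ℝ) := Nat.le_ceil _
    have h3 : ((⌈‖z‖⌉₊ : ℕ) : ℝ) ≤ ((1 + (q.coeff q.natDegree).natAbs + ∑ z ∈ R, ⌈‖z‖⌉₊ : ℕ) : ℝ) := by
      exact_mod_cast h1.trans (Nat.le_add_left _ _)
    exact h2.trans h3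

end Pool.Agent.H56.GN
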