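import Pool.Agent.H56.GN.RDP
import Pool.Agent.H56.GN.ELM
import Pool.Agent.H56.GN.FCP
import Pool.Agent.H56.GN.QTH
import Pool.Agent.H56.GN.NER
import Pool.Agent.H56.GN.NUM
import Pool.Agent.H8.TM.MXB

/-! # [H56 GN ASM] The points near `θ` are generic: assembly (helper56) -/

namespace Pool.Agent.H56.GN

open Finset Polynomial Pool.Agent.H37.TE Pool.Agent.H98.TE Pool.Agent.H4.TP Pool.Agent.H34.AC
  Pool.Agent.H97.NW Pool.Agent.H97.FB Pool.Agent.H8.AW Pool.Agent.H8.TM Pool.Agent.H97.TU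
  Pool.Agent.H98.XG Pool.Agent.H52.AC

theorem gen {n m : ℕ} {F : ℤ[X][X][X]} (hn : 3 ≤ n) (h : HypG n m F) (_hm : 1 ≤ m) {θ : ℝ}
    (hθ : (topm n m F).eval θ = 0) (h3 : 3 ≤ (minpoly ℚ θ).natDegree) : GEN F θ := by
  obtain ⟨hint, hdeg⟩ := deg_le h hθ
  obtain ⟨q, B, hqr, hqi, hT⟩ := exists_q θ hint
  obtain ⟨c1, C2, hc1, hC2, hner⟩ := ner h hθ
  intro Q j hQ hj
  refine ⟨c1, hc1, fun d => ?_⟩
  obtain ⟨D, hD⟩ : ∃ D, D = (m + d) * (n + d) + n := ⟨_, rfl⟩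
  have hD3 : 3 ≤ D := by omega
  have hν : 4 ≤ D * (D + 1) := by nlinarith
  obtain ⟨ce, hce1, hel⟩ := elim_t (by omega) h d
  obtain ⟨cf, hcf1, hfc⟩ := fac_pt D (by omega)
  obtain ⟨κ, hred⟩ := redP D q.natDegree B hD3
  obtain ⟨cx, hfix⟩ := fix_all D (D * (D + 1)) hν
  obtain ⟨c, hc⟩ : ∃ c, c = cx + cA (D * (D + 1)) := ⟨_, rfl⟩
  obtain ⟨L, hL⟩ := hfix c (by omega) {q}
  obtain ⟨K, hK⟩ : ∃ K : ℕ, K = ⌈2 * C2⌉₊ + 1 := ⟨_, rfl⟩
  obtain ⟨k1, hk1⟩ : ∃ k1, k1 = cR D * c * (2 * D + 3) + κ := ⟨_, rfl⟩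
  obtain ⟨E, hE⟩ : ∃ E : ℕ, E = ce * cf * k1 + ce * cf + ce := ⟨_, rfl⟩
  obtain ⟨ε, hε, A0, hnum⟩ := num E Q K
  obtain ⟨X0, hX0⟩ : ∃ X0 : ℕ, X0 = ⌈Real.exp ((2 * D + 3 : ℕ) * L)⌉₊ := ⟨_, rfl⟩
  refine ⟨ε, hε, A0 + X0 ^ Q + 2, ?_⟩
  intro a x y ha hN G hG0 hGd hGd' hGe
  by_contra hcon
  push Not at hcon
  have ha2 : 2 ≤ a := by omega
  obtain ⟨H, hH2, hHe, hHa⟩ := hnum a (by omega)
  have hGB : Bnd d H G := ⟨hGd, hGd', fun i j => by
    have h1 := (hcon i j).le.trans hHe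
    exact_mod_cast h1⟩
  -- sizes
  have hxQ : a ≤ x.natAbs ^ Q := by
    have h1 : (a : ℤ) ≤ |x| ^ Q :=
      le_trans (by exact_mod_cast Nat.le_self_pow (by omega) a) hN.lo
    rw [Int.abs_eq_natAbs] at h1
    exact_mod_cast h1
  have hbx : H ^ E * K < x.natAbs := lt_of_pow_lt_pow_left₀ Q (Nat.zero_le _) (hHa.trans_le hxQ)
  have hba : H ^ E * K < a :=
    lt_of_pow_lt_pow_left₀ Q (Nat.zero_le _) (hHa.trans_le (Nat.le_self_pow (by omega) a))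
  have hK1 : 1 ≤ K := by omega
  have hEx : H ^ E < x.natAbs := lt_of_le_of_lt (Nat.le_mul_of_pos_right _ hK1) hbx
  have hEa : H ^ E < a := lt_of_le_of_lt (Nat.le_mul_of_pos_right _ hK1) hba
  have hpow : ∀ k, k ≤ E → H ^ k ≤ H ^ E := fun k hk => Nat.pow_le_pow_right (by omega) hk
  have hx0 : x ≠ 0 := by
    rintro rfl
    simp at hEx
  -- elimination of `t`
  obtain ⟨R, hR0, hRd, hRc, hRv⟩ := hel H hH2 G hG0 hGB a x y hGe hN.ev
    (by rw [Int.natAbs_natCast]; exact (hpow ce (by omega)).trans_lt hEa)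
    ((hpow ce (by omega)).trans_lt hEx)
  -- an irreducible factor
  have hce2 : 2 ≤ H ^ ce := hH2.trans (Nat.le_self_pow (by omega) H)
  have hcc : 1 ≤ ce * cf := Nat.mul_pos hce1 hcf1
  obtain ⟨F1, -, hF1i, hF1d, hF1y, hF1v, hF1c⟩ := hfc R (H ^ ce) hce2 hR0 (by omega) hRc x y hRv
    (by rw [← pow_mul]; exact (hpow (ce * cf) (by omega)).trans_lt hEx)
  obtain ⟨H2, hH2d⟩ : ∃ H2, H2 = (H ^ ce) ^ cf := ⟨_, rfl⟩
  rw [← hH2d] at hF1c
  have hH22 : 2 ≤ H2 := by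
    rw [hH2d]
    exact hce2.trans (Nat.le_self_pow (by omega) _)
  have hH2k : ∀ k, k ≤ k1 → H2 ^ k ≤ H ^ E := by
    intro k hk
    rw [hH2d, ← pow_mul, ← pow_mul]
    refine hpow _ ?_
    have h1 : ce * cf * k ≤ ce * cf * k1 := Nat.mul_le_mul_left _ hk
    rw [← mul_assoc, hE]
    omega
  -- the slope
  have hρ : |(y : ℝ) / x - θ| ≤ C2 * (1 / ((H ^ E * K : ℕ) : ℝ)) := by
    have hb0 : (0 : ℝ) < ((H ^ E * K : ℕ) : ℝ) := by
      exact_mod_cast Nat.mul_pos (Nat.pow_pos (by omega)) hK1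
    refine hner a x y _ (by omega) hx0 hN.le hN.ev hN.near ?_ ?_ ?_
    · exact one_div_le_one_div_of_le hb0 (by exact_mod_cast hba.le)
    · refine one_div_le_one_div_of_le hb0 ?_
      have h1 : ((x.natAbs : ℕ) : ℝ) = |(x : ℝ)| := by
        rw [Nat.cast_natAbs, Int.cast_abs]
      rw [← h1]
      exact_mod_cast hbx.le
    · rw [div_le_one hb0]
      exact_mod_cast Nat.mul_pos (Nat.pow_pos (by omega)) hK1
  have hKC : C2 < K := by
    rw [hK]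
    push_cast
    have := Nat.le_ceil (2 * C2)
    linarith
  have hsl : |(y : ℝ) / x - θ| * (H2 : ℝ) ^ κ < 1 := by
    have h1 : (H2 : ℝ) ^ κ ≤ (H : ℝ) ^ E := by exact_mod_cast hH2k κ (by omega)
    have hE0 : (0 : ℝ) < (H : ℝ) ^ E := by
      have : (0 : ℝ) < H := by exact_mod_cast (by omega : 0 < H)
      positivity
    have hK0 : (0 : ℝ) < K := by exact_mod_cast hK1
    calc |(y : ℝ) / x - θ| * (H2 : ℝ) ^ κ
        ≤ C2 * (1 / ((H ^ E * K : ℕ) : ℝ)) * (H : ℝ) ^ E :=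
          mul_le_mul hρ h1 (by positivity) (by positivity)
      _ = C2 / K := by
          push_cast
          field_simp
      _ < 1 := by rwa [div_lt_one hK0]
  obtain ⟨P, hPT, hPx, hPl⟩ := hred c (by omega) _ _ θ hT F1 hF1i hF1d hF1y H2 hH22 hF1c x y hF1v
    hN.le (by rw [← hk1]; exact (hH2k k1 le_rfl).trans_lt hEx) hsl
  have hell := hL q (mem_singleton_self q) (by omega) (by omega) hqi P hPT hPl
  have hxp : (0 : ℝ) < |(P.x : ℝ)| := by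
    by_contra hneg
    have h4 : |(P.x : ℝ)| = 0 := le_antisymm (not_lt.1 hneg) (abs_nonneg _)
    rw [h4, zero_pow (by omega)] at hPx
    have h5 : (0 : ℝ) < x.natAbs := by
      exact_mod_cast Int.natAbs_pos.2 hx0
    linarith
  have h6 : |(P.x : ℝ)| ^ (2 * D + 3) ≤ Real.exp ((2 * D + 3 : ℕ) * L) := by
    rw [← Real.exp_log (pow_pos hxp (2 * D + 3)), Real.exp_le_exp, Real.log_pow]
    exact mul_le_mul_of_nonneg_left hell (Nat.cast_nonneg _)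
  have h7 : x.natAbs ≤ X0 := by
    rw [hX0]
    have h8 := (hPx.trans h6).trans (Nat.le_ceil _)
    exact_mod_cast h8
  have h8 : a ≤ X0 ^ Q := hxQ.trans (Nat.pow_le_pow_left h7 Q)
  omega

end Pool.Agent.H56.GN
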