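import Pool.Agent.H56.GN.Defs
import Pool.Agent.H52.AC.SPL

/-! # [H56 GN EVV] The value of the two series at the point

`nuS M a q e w = C (a^M) * uu q e w (M - 1) 0 0 - uu q e w M 0 M`, `deS M a q e w = C (a^(M-1)) * uu q e w M 0 1`. All series converge absolutely at `T` (`Gr ‖T‖ w`: `gr_of_le`, `gr_mul`,
`gr_C`, `gr_X`, `gr_add`, `gr_neg` in `Pool/Agent/H52/AC/EVH.lean`; `uu` is in the subring `cvz`), `evz_uu` (`Pool/Agent/H52/AC/SPL.lean`), `evz_mul, evz_C, evz_add`. With `s = (q T)^e`, `s u = 1`,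
`w(T) = a x / u`: `evz nuS = a^M s^(M-1) - (a x / u)^M`, times `u^M`: `a^M u - a^M x^M = a^M (u - x^M) = a^M y` (`u^M = u u^(M-1)`, `s^(M-1) u^(M-1) = 1`);
`evz deS = a^(M-1) s^(M-1) (a x / u)`, times `u^M`: `a^M x`. `u ≠ 0` from `hTu`.
`ev_W`: linearity, and cancel `u^M`: `(b a^M y - β a^M x) x = (b y - β x) a^M x`. -/

namespace Pool.Agent.H56.GN

open Finset Polynomial Pool.Agent.H52.AC

variable {w : PowerSeries ℂ} {R : ℝ} {q e M : ℕ} {a : ℤ} {T : ℂ} {u x y : ℤ}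

private theorem evv_alg (N : ℕ) (b β a s W U X Y : ℂ) (h1 : s * U = 1) (h2 : W * U = a * X)
    (h3 : U = Y + X ^ (N + 1)) :
    (b * (a ^ (N + 1) * s ^ N - W ^ (N + 1)) - β * (a ^ N * s ^ N * W)) * X =
      (b * Y - β * X) * (a ^ N * s ^ N * W) := by
  have hU : U ≠ 0 := right_ne_zero_of_mul_eq_one h1
  have e1 : s ^ N * U ^ N = 1 := by rw [← mul_pow, h1, one_pow]
  have e3 : W ^ (N + 1) * U ^ (N + 1) = (a * X) ^ (N + 1) := by rw [← mul_pow, h2]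
  apply mul_left_cancel₀ (pow_ne_zero (N + 1) hU)
  linear_combination (b * a ^ (N + 1) * U * X - β * a ^ N * (W * U) * X -
      (b * Y - β * X) * a ^ N * (W * U)) * e1 - b * X * e3 +
    (-β * a ^ N * X - (b * Y - β * X) * a ^ N) * h2 + b * a ^ (N + 1) * X * h3

theorem ev_W (hR : 0 ≤ R) (hM : 1 ≤ M) (hw : ∀ m, ‖PowerSeries.coeff m w‖ ≤ R ^ (m + 1))
    (hT : R * ‖T‖ < 1) (hu : u = y + x ^ M) (hTu : ((q : ℂ) * T) ^ e * (u : ℂ) = 1)
    (hi : evz T w = ((a * x : ℤ) : ℂ) / (u : ℂ)) (b β : ℂ) :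
    evz T (PowerSeries.C b * nuS M a q e w - PowerSeries.C β * deS M a q e w) * (x : ℂ) =
      (b * y - β * x) * evz T (deS M a q e w) := by
  have hr : 0 ≤ ‖T‖ := norm_nonneg T
  obtain ⟨N, rfl⟩ : ∃ N, M = N + 1 := ⟨M - 1, by omega⟩
  let S : cvz ‖T‖ hr := ⟨PowerSeries.X, gr_X _⟩
  let c : cvz ‖T‖ hr := ⟨PowerSeries.C (q : ℂ), gr_C _ _⟩
  let Y : cvz ‖T‖ hr := ⟨w, gr_of_le hR hr hT (C := R) fun m => by
    rw [← pow_succ']
    exact hw m⟩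
  let K : ℂ → cvz ‖T‖ hr := fun z => ⟨PowerSeries.C z, gr_C _ _⟩
  have hS : evH ‖T‖ hr T le_rfl S = T := evz_X T
  have hc : evH ‖T‖ hr T le_rfl c = (q : ℂ) := evz_C T _
  have hY : evH ‖T‖ hr T le_rfl Y = evz T w := rfl
  have hK : ∀ z, evH ‖T‖ hr T le_rfl (K z) = z := fun z => evz_C T z
  have h1 : evz T (PowerSeries.C b * nuS (N + 1) a q e w -
      PowerSeries.C β * deS (N + 1) a q e w) =
      b * ((a : ℂ) ^ (N + 1) * (((q : ℂ) * T) ^ e) ^ N - evz T w ^ (N + 1)) -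
        β * ((a : ℂ) ^ N * (((q : ℂ) * T) ^ e) ^ N * evz T w) := by
    have h2 : evH ‖T‖ hr T le_rfl
        (K b * (K ((a : ℂ) ^ (N + 1)) * ((c * S) ^ e) ^ N - Y ^ (N + 1)) -
          K β * (K ((a : ℂ) ^ N) * ((c * S) ^ e) ^ N * Y)) =
        b * ((a : ℂ) ^ (N + 1) * (((q : ℂ) * T) ^ e) ^ N - evz T w ^ (N + 1)) -
          β * ((a : ℂ) ^ N * (((q : ℂ) * T) ^ e) ^ N * evz T w) := by
      simp only [map_sub, map_mul, map_pow, hS, hc, hY, hK]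
    exact h2
  have h3 : evz T (deS (N + 1) a q e w) =
      (a : ℂ) ^ N * (((q : ℂ) * T) ^ e) ^ N * evz T w := by
    have h2 : evH ‖T‖ hr T le_rfl (K ((a : ℂ) ^ N) * ((c * S) ^ e) ^ N * Y) =
        (a : ℂ) ^ N * (((q : ℂ) * T) ^ e) ^ N * evz T w := by
      simp only [map_mul, map_pow, hS, hc, hY, hK]
    exact h2
  have hu0 : (u : ℂ) ≠ 0 := right_ne_zero_of_mul_eq_one hTu
  rw [h1, h3]
  refine evv_alg N b β a _ _ u x y hTu ?_ ?_
  · rw [hi, div_mul_cancel₀ _ hu0]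
    push_cast
    ring
  · rw [hu]
    push_cast
    ring

end Pool.Agent.H56.GN
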