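import Pool.Agent.H52.AC.EVH

/-! # [H56 GN TLE] Tails of power series; the order of the branch

`evz T v = ∑' m, coeff m v * T^m`, dominated by the geometric series `C (K ‖T‖)^m` (summable, `K ‖T‖ ≤ 1/2`).
`tl_le`: if the coefficients below `j` vanish: `‖∑_(m ≥ j)‖ ≤ C (K‖T‖)^j / (1 - K‖T‖) ≤ 2 C (K‖T‖)^j` (split `∑'` with `Summable.sum_add_tsum_nat_add`, or: write
`v` as `X^j * v'` and use `evz_le` (`Pool/Agent/H52/AC/EVH.lean`) for `v'`, `coeff m v' = coeff (m + j) v`, bound `C K^j K^m`). The second estimate is the first one for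
`v - C (coeff j v) * X^j` and `j + 1` (whose coefficients are those of `v` except the `j`-th, which is `0`), `evz` additive.
`ord_le`: suppose all coefficients of `w` up to `e` vanish; `tl_le` with `C = R`, `K = R`, `j = e + 1`: `‖evz T w‖ ≤ 2 R (R ‖T‖)^(e+1) = (2 R^(e+2) ‖T‖) ‖T‖^e`. But
`‖evz T w‖ = |z| / |u| ≥ 1 / |u| = ‖(q T)^e‖ = (q ‖T‖)^e ≥ ‖T‖^e > 0` (`T ≠ 0`: otherwise for `e ≥ 1` `hTu` fails; for `e = 0` the inequality `‖evz T w‖ ≥ 1` and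
`‖evz T w‖ ≤ 2 R^2 ‖T‖ < 1` suffice). Contradiction with `hs`. -/

namespace Pool.Agent.H56.GN

open Finset Polynomial Pool.Agent.H52.AC

private theorem tail_le {v : PowerSeries ℂ} {C K : ℝ} {T : ℂ} (hC : 0 ≤ C) (hK : 0 ≤ K)
    (hT : K * ‖T‖ ≤ 1 / 2) (hv : ∀ k, ‖PowerSeries.coeff k v‖ ≤ C * K ^ k) (j : ℕ) :
    ‖evz T v - ∑ k ∈ range j, PowerSeries.coeff k v * T ^ k‖ ≤ 2 * C * (K * ‖T‖) ^ j := by
  have hx0 : 0 ≤ K * ‖T‖ := mul_nonneg hK (norm_nonneg _)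
  have hgeo : Summable fun m : ℕ => C * (K * ‖T‖) ^ m :=
    (summable_geometric_of_lt_one hx0 (by linarith)).mul_left C
  have hb : ∀ m, ‖PowerSeries.coeff m v * T ^ m‖ ≤ C * (K * ‖T‖) ^ m := by
    intro m
    rw [norm_mul, norm_pow, mul_pow, ← mul_assoc]
    exact mul_le_mul_of_nonneg_right (hv m) (pow_nonneg (norm_nonneg _) m)
  have hs : Summable fun m => PowerSeries.coeff m v * T ^ m := Summable.of_norm_bounded hgeo hb
  have h1 : evz T v - ∑ k ∈ range j, PowerSeries.coeff k v * T ^ k =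
      ∑' m, PowerSeries.coeff (m + j) v * T ^ (m + j) := by
    unfold evz
    rw [← hs.sum_add_tsum_nat_add j]
    ring
  rw [h1]
  have hgeo' : HasSum (fun m : ℕ => C * (K * ‖T‖) ^ (m + j))
      (C * (K * ‖T‖) ^ j * (1 - K * ‖T‖)⁻¹) := by
    have h2 := (hasSum_geometric_of_lt_one hx0 (by linarith)).mul_left (C * (K * ‖T‖) ^ j)
    refine h2.congr_fun ?_
    intro m
    ring
  refine (tsum_of_norm_bounded hgeo' fun m => hb (m + j)).trans ?_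
  have h3 : (1 - K * ‖T‖)⁻¹ ≤ 2 := by
    rw [inv_le_comm₀ (by linarith) (by norm_num)]
    linarith
  calc C * (K * ‖T‖) ^ j * (1 - K * ‖T‖)⁻¹ ≤ C * (K * ‖T‖) ^ j * 2 :=
        mul_le_mul_of_nonneg_left h3 (mul_nonneg hC (pow_nonneg hx0 j))
    _ = 2 * C * (K * ‖T‖) ^ j := by ring

theorem tl_le {v : PowerSeries ℂ} {C K : ℝ} {T : ℂ} (hC : 0 ≤ C) (hK : 0 ≤ K)
    (hT : K * ‖T‖ ≤ 1 / 2) (hv : ∀ k, ‖PowerSeries.coeff k v‖ ≤ C * K ^ k) {j : ℕ}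
    (h0 : ∀ k < j, PowerSeries.coeff k v = 0) :
    ‖evz T v‖ ≤ 2 * C * (K * ‖T‖) ^ j ∧
      ‖evz T v - PowerSeries.coeff j v * T ^ j‖ ≤ 2 * C * (K * ‖T‖) ^ (j + 1) := by
  have h1 : ∑ k ∈ range j, PowerSeries.coeff k v * T ^ k = 0 :=
    Finset.sum_eq_zero fun k hk => by rw [h0 k (Finset.mem_range.1 hk), zero_mul]
  refine ⟨?_, ?_⟩
  · have h2 := tail_le hC hK hT hv j
    rwa [h1, sub_zero] at h2
  · have h2 := tail_le hC hK hT hv (j + 1)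
    rwa [Finset.sum_range_succ, h1, zero_add] at h2

theorem ord_le {w : PowerSeries ℂ} {R : ℝ} {q e : ℕ} (hR : 1 ≤ R) (hq : 1 ≤ q)
    (hw : ∀ m, ‖PowerSeries.coeff m w‖ ≤ R ^ (m + 1)) {T : ℂ} (hT : R * ‖T‖ ≤ 1 / 2) {u z : ℤ}
    (hz : z ≠ 0) (hTu : ((q : ℂ) * T) ^ e * (u : ℂ) = 1) (hi : evz T w = (z : ℂ) / (u : ℂ))
    (hs : 2 * R ^ (e + 2) * ‖T‖ < 1) : ∃ k ≤ e, PowerSeries.coeff k w ≠ 0 := by
  by_contra hcon
  push Not at hcon
  have hR0 : 0 ≤ R := zero_le_one.trans hR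
  have h1 := (tl_le (v := w) (C := R) (K := R) (T := T) hR0 hR0 hT (fun k => by
    rw [← pow_succ']
    exact hw k) (j := e + 1) (fun k hk => hcon k (by omega))).1
  have hu : (u : ℂ) ≠ 0 := by
    rintro h
    rw [h, mul_zero] at hTu
    exact zero_ne_one hTu
  have h2 : evz T w = (z : ℂ) * ((q : ℂ) * T) ^ e := by
    rw [hi, div_eq_iff hu, mul_assoc, hTu, mul_one]
  have hz1 : (1 : ℝ) ≤ ‖(z : ℂ)‖ := by
    rw [Complex.norm_intCast]
    exact_mod_cast Int.one_le_abs hz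
  have hq1 : (1 : ℝ) ≤ (q : ℝ) := by exact_mod_cast hq
  have h3 : ‖T‖ ^ e ≤ ‖evz T w‖ := by
    rw [h2, norm_mul, norm_pow, norm_mul, Complex.norm_natCast]
    calc ‖T‖ ^ e = 1 * (1 * ‖T‖) ^ e := by ring
      _ ≤ ‖(z : ℂ)‖ * ((q : ℝ) * ‖T‖) ^ e :=
          mul_le_mul hz1 (pow_le_pow_left₀ (by positivity)
            (mul_le_mul_of_nonneg_right hq1 (norm_nonneg _)) e) (by positivity) (norm_nonneg _)
  have hpos : 0 < ‖T‖ ^ e := by
    rcases Nat.eq_zero_or_pos e with h | h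
    · rw [h, pow_zero]
      exact one_pos
    · apply pow_pos
      rw [norm_pos_iff]
      rintro rfl
      rw [mul_zero, zero_pow (by omega), zero_mul] at hTu
      exact zero_ne_one hTu
  have h4 : ‖T‖ ^ e ≤ (2 * R ^ (e + 2) * ‖T‖) * ‖T‖ ^ e := by
    calc ‖T‖ ^ e ≤ 2 * R * (R * ‖T‖) ^ (e + 1) := h3.trans h1
      _ = (2 * R ^ (e + 2) * ‖T‖) * ‖T‖ ^ e := by
          rw [mul_pow]
          ring
  nlinarith

end Pool.Agent.H56.GN
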