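import Pool.Agent.H56.GN.LOW
import Pool.Agent.H56.GN.EVV
import Pool.Agent.H56.GN.TLE

/-! # [H56 GN CMP] The value of `y/x` at the point at infinity is `θ`

Put `w = pd.x i`, `R = pd.R ≥ 2`, `q = pd.q ≥ 1`, `e = pd.e ≥ 1`, `ℓ = ‖T‖`, `E = (e M + M + 4)(d r + 1) ≥ e + 6`. `K ≥ 2 q R |a| ≥ 4`, `R ≤ K / 2`. From `hsm` (`δ ≥ 0`, `ℓ ≥ 0`): `K^E ℓ < 1`, so `K ℓ ≤ 1/2`,
`2 R^(e+2) ℓ ≤ K^(e+2) ℓ < 1`, `ℓ ≤ 1`; `T ≠ 0` by `hTu` (`e ≥ 1`).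
`ord_le` (`z = a x ≠ 0`): let `k0 ≤ e` be the least index with `coeff k0 w ≠ 0` (`Nat.find`). `o = e (M - 1) + k0 ≤ e M` (`M ≥ 1`). `deS = C (a^(M-1) q^(e(M-1))) * X^(e(M-1)) * w`, so its coefficients below `o` vanish and
`coeff o deS = a^(M-1) q^(e(M-1)) coeff k0 w ≠ 0` (`PowerSeries.coeff_X_pow_mul'`, `coeff_C_mul`).
Let `W = C b0 * nuS - C (b0 θ) * deS` (power series), `coeff k W = b0 coeff k nuS - b0 θ coeff k deS`. Claim: `coeff k W = 0` for all `k ≤ o`; then `o` is the required index. Suppose not, let `k ≤ o` be the least index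
with `coeff k W ≠ 0`. `low`: `1 ≤ ‖coeff k W‖ (K^(k+M+2))^(d r)`.
`‖coeff m W‖ ≤ |b0| 2 K^(m+M) + |b0 θ| K^(m+M) ≤ 3 B K^(m+M) ≤ K^(M+2) K^m` (`nuS_le, deS_le, ht.bB`, `ht.le` for `ht.root`; `2 B ≤ K`). `tl_le` (`C = K^(M+2)`, `j = k`): `‖evz T W - coeff k W T^k‖ ≤ 2 K^(M+2) (K ℓ)^(k+1)`.
`tl_le` for `deS` (`C = K^M`, `j = o`): `‖evz T deS‖ ≤ 2 K^M (K ℓ)^o ≤ 2 K^(M+o) ℓ^k` (`ℓ ≤ 1`, `k ≤ o`).
`ev_W` (`b = b0`, `β = b0 θ`): `evz T W * x = b0 (y - θ x) evz T deS`, divide by `x`: `‖evz T W‖ = |b0| |y/x - θ| ‖evz T deS‖ ≤ B δ 2 K^(M+o) ℓ^k ≤ K^(M+o+1) δ ℓ^k`.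
So `‖coeff k W‖ ℓ^k ≤ 2 K^(M+3+k) ℓ^(k+1) + K^(M+o+1) δ ℓ^k`, divide by `ℓ^k > 0`: `‖coeff k W‖ ≤ 2 K^(M+3+o) ℓ + K^(M+o+1) δ ≤ K^(M+4+o) (ℓ + δ)`. With `low` (`k ≤ o ≤ e M`):
`1 ≤ K^((o+M+2) d r + M + 4 + o) (ℓ + δ) ≤ K^((e M+M+4)(d r+1)) (ℓ + δ) < 1`, contradiction. -/

namespace Pool.Agent.H56.GN

open Finset Polynomial Pool.Agent.H87.SA2 Pool.Agent.H34.AC Pool.Agent.H52.AC

theorem cmp {f : ℤ[X][X]} {d : ℕ} (pd : PData f d) {r : ℕ} {g : ℤ[X]} {b0 : ℤ} {θ : ℝ} {B : ℕ}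
    (ht : Tht r g b0 θ B) {M : ℕ} (hM : 1 ≤ M) {a : ℤ} (ha : a ≠ 0) {K : ℝ}
    (hK : 2 * pd.q * pd.R * |(a : ℝ)| ≤ K) (hKB : 2 * (B : ℝ) ≤ K) {i : Fin d} {T : ℂ}
    {u x y : ℤ} {δ : ℝ} (hu : u = y + x ^ M) (hx : x ≠ 0)
    (hTu : ((pd.q : ℂ) * T) ^ pd.e * (u : ℂ) = 1)
    (hi : evz T (pd.x i) = ((a * x : ℤ) : ℂ) / (u : ℂ)) (hδ : |(y : ℝ) / x - θ| ≤ δ)
    (hsm : K ^ ((pd.e * M + M + 4) * (d * r + 1)) * (‖T‖ + δ) < 1) :
    ∃ o, PowerSeries.coeff o (deS M a pd.q pd.e (pd.x i)) ≠ 0 ∧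
      (b0 : ℂ) * PowerSeries.coeff o (nuS M a pd.q pd.e (pd.x i)) =
        (b0 : ℂ) * (θ : ℂ) * PowerSeries.coeff o (deS M a pd.q pd.e (pd.x i)) := by
  classical
  obtain ⟨w, hw⟩ : ∃ w, w = pd.x i := ⟨_, rfl⟩
  obtain ⟨R, hRR⟩ : ∃ R, R = pd.R := ⟨_, rfl⟩
  obtain ⟨q, hqq⟩ : ∃ q, q = pd.q := ⟨_, rfl⟩
  obtain ⟨e, hee⟩ : ∃ e, e = pd.e := ⟨_, rfl⟩
  have hlow := low pd ht hM ha hK hKB i
  have hR2 : 2 ≤ R := hRR ▸ pd.R_ge
  have hq1 : 1 ≤ q := hqq ▸ pd.q_pos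
  have he1 : 1 ≤ e := hee ▸ pd.e_pos
  have hgr : ∀ m, ‖PowerSeries.coeff m w‖ ≤ R ^ (m + 1) := by
    rw [hw, hRR]
    exact pd.growth i
  rw [← hw, ← hqq, ← hee] at hlow
  rw [← hw, ← hqq, ← hee]
  rw [← hqq, ← hRR] at hK
  rw [← hqq, ← hee] at hTu
  rw [← hw] at hi
  rw [← hee] at hsm
  have ha1 : (1 : ℝ) ≤ |(a : ℝ)| := by
    have h1 : (1 : ℤ) ≤ |a| := Int.one_le_abs ha
    have h2 : ((1 : ℤ) : ℝ) ≤ ((|a| : ℤ) : ℝ) := by exact_mod_cast h1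
    push_cast at h2
    exact h2
  have hq1' : (1 : ℝ) ≤ q := by exact_mod_cast hq1
  have hR1 : 1 ≤ R := by linarith
  have hRK : 2 * R ≤ K := by
    refine le_trans ?_ hK
    have h1 : (1 : ℝ) ≤ q * |(a : ℝ)| := one_le_mul_of_one_le_of_one_le hq1' ha1
    nlinarith
  have hK4 : 4 ≤ K := by linarith
  have hK0 : 0 < K := by linarith
  have hK1 : 1 ≤ K := by linarith
  have hδ0 : 0 ≤ δ := (abs_nonneg _).trans hδ
  have hT0 : 0 ≤ ‖T‖ := norm_nonneg T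
  obtain ⟨E, hE⟩ : ∃ E, E = (e * M + M + 4) * (d * r + 1) := ⟨_, rfl⟩
  rw [← hE] at hsm
  have hEge : e * M + M + 4 ≤ E := by
    rw [hE]
    exact Nat.le_mul_of_pos_right _ (Nat.succ_pos _)
  have heM : e ≤ e * M := Nat.le_mul_of_pos_right _ hM
  have hpow : ∀ n ≤ E, K ^ n * ‖T‖ < 1 := by
    intro n hn
    refine lt_of_le_of_lt ?_ hsm
    have h1 : K ^ n ≤ K ^ E := pow_le_pow_right₀ hK1 hn
    have h2 : (0 : ℝ) ≤ K ^ E := by positivity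
    nlinarith [mul_le_mul_of_nonneg_right h1 hT0, mul_nonneg h2 hδ0]
  have hKT : K * ‖T‖ ≤ 1 / 2 := by
    have h1 := hpow 2 (by omega)
    rw [pow_two] at h1
    nlinarith [mul_nonneg hK0.le hT0]
  have hT1 : ‖T‖ ≤ 1 := by nlinarith
  have hRT : R * ‖T‖ ≤ 1 / 2 := by nlinarith
  have hTne : T ≠ 0 := by
    intro h
    rw [h, mul_zero, zero_pow (by omega), zero_mul] at hTu
    exact zero_ne_one hTu
  have hTp : 0 < ‖T‖ := norm_pos_iff.2 hTne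
  have hs2 : 2 * R ^ (e + 2) * ‖T‖ < 1 := by
    refine lt_of_le_of_lt ?_ (hpow (e + 2) (by omega))
    refine mul_le_mul_of_nonneg_right ?_ hT0
    have h1 : (2 * R) ^ (e + 2) ≤ K ^ (e + 2) := pow_le_pow_left₀ (by linarith) hRK _
    rw [mul_pow] at h1
    refine le_trans ?_ h1
    refine mul_le_mul_of_nonneg_right ?_ (by positivity)
    calc (2 : ℝ) = 2 ^ 1 := (pow_one _).symm
      _ ≤ 2 ^ (e + 2) := pow_le_pow_right₀ (by norm_num) (by omega)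
  have hex : ∃ k, PowerSeries.coeff k w ≠ 0 ∧ k ≤ e := by
    obtain ⟨k, hk1, hk2⟩ := ord_le hR1 hq1 hgr hRT (mul_ne_zero ha hx) hTu hi hs2
    exact ⟨k, hk2, hk1⟩
  obtain ⟨k0, ⟨hk0, hk0e⟩, hk0m⟩ : ∃ k, (PowerSeries.coeff k w ≠ 0 ∧ k ≤ e) ∧
      ∀ j < k, ¬ (PowerSeries.coeff j w ≠ 0 ∧ j ≤ e) :=
    ⟨Nat.find hex, Nat.find_spec hex, fun j hj => Nat.find_min hex hj⟩
  obtain ⟨c, hc⟩ : ∃ c : ℂ, c = (a : ℂ) ^ (M - 1) * (q : ℂ) ^ (e * (M - 1)) := ⟨_, rfl⟩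
  have hc0 : c ≠ 0 := by
    rw [hc]
    have h1 : (a : ℂ) ≠ 0 := by exact_mod_cast ha
    have h2 : (q : ℂ) ≠ 0 := by
      have : q ≠ 0 := by omega
      exact_mod_cast this
    exact mul_ne_zero (pow_ne_zero _ h1) (pow_ne_zero _ h2)
  have hde : deS M a q e w = PowerSeries.C c * (PowerSeries.X ^ (e * (M - 1)) * w) := by
    rw [deS, hc, ← pow_mul, mul_pow, map_mul, ← map_pow PowerSeries.C (q : ℂ)]
    ring
  have hdec : ∀ n, PowerSeries.coeff n (deS M a q e w) =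
      c * (if e * (M - 1) ≤ n then PowerSeries.coeff (n - e * (M - 1)) w else 0) := by
    intro n
    rw [hde, PowerSeries.coeff_C_mul, PowerSeries.coeff_X_pow_mul']
  obtain ⟨o, ho⟩ : ∃ o, o = e * (M - 1) + k0 := ⟨_, rfl⟩
  have hoM : o ≤ e * M := by
    obtain ⟨M', rfl⟩ : ∃ M', M = M' + 1 := ⟨M - 1, by omega⟩
    rw [ho, Nat.add_sub_cancel, mul_add, mul_one]
    omega
  have hdo : PowerSeries.coeff o (deS M a q e w) ≠ 0 := by
    rw [hdec, if_pos (by omega), show o - e * (M - 1) = k0 by omega]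
    exact mul_ne_zero hc0 hk0
  have hdlt : ∀ k < o, PowerSeries.coeff k (deS M a q e w) = 0 := by
    intro k hk
    rw [hdec]
    by_cases h1 : e * (M - 1) ≤ k
    · rw [if_pos h1]
      have h2 := hk0m (k - e * (M - 1)) (by omega)
      have h3 : PowerSeries.coeff (k - e * (M - 1)) w = 0 := by
        by_contra h4
        exact h2 ⟨h4, by omega⟩
      rw [h3, mul_zero]
    · rw [if_neg h1, mul_zero]
  obtain ⟨W, hW⟩ : ∃ W : PowerSeries ℂ, W = PowerSeries.C (b0 : ℂ) * nuS M a q e w -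
      PowerSeries.C ((b0 : ℂ) * (θ : ℂ)) * deS M a q e w := ⟨_, rfl⟩
  have hWc : ∀ k, PowerSeries.coeff k W = (b0 : ℂ) * PowerSeries.coeff k (nuS M a q e w) -
      (b0 : ℂ) * (θ : ℂ) * PowerSeries.coeff k (deS M a q e w) := by
    intro k
    rw [hW, map_sub, PowerSeries.coeff_C_mul, PowerSeries.coeff_C_mul]
  refine ⟨o, hdo, ?_⟩
  rw [← sub_eq_zero, ← hWc]
  by_contra hne
  have hex2 : ∃ k, PowerSeries.coeff k W ≠ 0 ∧ k ≤ o := ⟨o, hne, le_rfl⟩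
  obtain ⟨k, ⟨hk, hko⟩, hkm⟩ : ∃ k, (PowerSeries.coeff k W ≠ 0 ∧ k ≤ o) ∧
      ∀ j < k, ¬ (PowerSeries.coeff j W ≠ 0 ∧ j ≤ o) :=
    ⟨Nat.find hex2, Nat.find_spec hex2, fun j hj => Nat.find_min hex2 hj⟩
  have hWlt : ∀ j < k, PowerSeries.coeff j W = 0 := by
    intro j hj
    by_contra h4
    exact hkm j hj ⟨h4, by omega⟩
  have hlk := hlow k (by rw [← hWc]; exact hk)
  rw [← hWc] at hlk
  have hB0 : (0 : ℝ) ≤ B := Nat.cast_nonneg _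
  have hb : ‖(b0 : ℂ)‖ ≤ B := by
    rw [Complex.norm_intCast]
    have := ht.bB
    have h3 : ((|b0| : ℤ) : ℝ) ≤ ((B : ℤ) : ℝ) := by exact_mod_cast this
    push_cast at h3
    exact h3
  have hbθ : ‖(b0 : ℂ) * (θ : ℂ)‖ ≤ B := ht.le _ ht.root
  have hdb : ∀ m, ‖PowerSeries.coeff m (deS M a q e w)‖ ≤ K ^ M * K ^ m := by
    intro m
    rw [← pow_add, add_comm M m]
    exact deS_le hR1 hq1 ha hM hK hgr m
  have hWb : ∀ m, ‖PowerSeries.coeff m W‖ ≤ K ^ (M + 2) * K ^ m := by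
    intro m
    have h1 := nuS_le (e := e) hR1 hq1 ha hM hK hgr m
    have h2 := deS_le (e := e) hR1 hq1 ha hM hK hgr m
    rw [hWc]
    refine (norm_sub_le _ _).trans ?_
    rw [norm_mul, norm_mul ((b0 : ℂ) * (θ : ℂ))]
    have hKp : (0 : ℝ) < K ^ (m + M) := by positivity
    have h3 : ‖(b0 : ℂ)‖ * ‖PowerSeries.coeff m (nuS M a q e w)‖ ≤
        B * (2 * K ^ (m + M)) := mul_le_mul hb h1 (norm_nonneg _) hB0
    have h4 : ‖(b0 : ℂ) * (θ : ℂ)‖ * ‖PowerSeries.coeff m (deS M a q e w)‖ ≤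
        B * (K ^ (m + M)) := mul_le_mul hbθ h2 (norm_nonneg _) hB0
    refine (add_le_add h3 h4).trans ?_
    rw [← pow_add, show M + 2 + m = (m + M) + 2 by ring, pow_add K (m + M) 2]
    have h5 : (B : ℝ) * 3 ≤ K ^ 2 := by nlinarith
    nlinarith
  have ht1 := (tl_le (T := T) (by positivity) hK0.le hKT hWb hWlt).2
  have ht2 := (tl_le (T := T) (by positivity) hK0.le hKT hdb hdlt).1
  have hev := ev_W (R := R) (q := q) (e := e) (by linarith) hM hgr (by linarith) hu hTu hi (b0 : ℂ)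
    ((b0 : ℂ) * (θ : ℂ))
  rw [← hW] at hev
  have hxp : (0 : ℝ) < |(x : ℝ)| := by
    rw [abs_pos]
    exact_mod_cast hx
  have hev2 : ‖evz T W‖ ≤ B * δ * ‖evz T (deS M a q e w)‖ := by
    have h1 := congrArg (fun z : ℂ => ‖z‖) hev
    simp only [norm_mul] at h1
    rw [Complex.norm_intCast] at h1
    have h2 : ‖(b0 : ℂ) * (y : ℂ) - (b0 : ℂ) * (θ : ℂ) * (x : ℂ)‖ ≤ B * (δ * |(x : ℝ)|) := by
      have h3 : (b0 : ℂ) * (y : ℂ) - (b0 : ℂ) * (θ : ℂ) * (x : ℂ) =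
          (b0 : ℂ) * ((((y : ℝ) / x - θ) * x : ℝ) : ℂ) := by
        have hx' : (x : ℂ) ≠ 0 := by exact_mod_cast hx
        push_cast
        field_simp
      rw [h3, norm_mul, Complex.norm_real, Real.norm_eq_abs, abs_mul]
      exact mul_le_mul hb (mul_le_mul_of_nonneg_right hδ (abs_nonneg _)) (by positivity) hB0
    have h3 : ‖evz T W‖ * |(x : ℝ)| ≤ B * δ * ‖evz T (deS M a q e w)‖ * |(x : ℝ)| := by
      rw [h1]
      calc _ ≤ B * (δ * |(x : ℝ)|) * ‖evz T (deS M a q e w)‖ :=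
            mul_le_mul_of_nonneg_right h2 (norm_nonneg _)
        _ = _ := by ring
    exact le_of_mul_le_mul_right h3 hxp
  have hTk : 0 < ‖T‖ ^ k := by positivity
  have hok : (K * ‖T‖) ^ o ≤ K ^ o * ‖T‖ ^ k := by
    rw [mul_pow]
    exact mul_le_mul_of_nonneg_left (pow_le_pow_of_le_one hT0 hT1 hko) (by positivity)
  have hmain : ‖PowerSeries.coeff k W‖ ≤ K ^ (M + 4 + o) * (‖T‖ + δ) := by
    have h1 : ‖PowerSeries.coeff k W‖ * ‖T‖ ^ k ≤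
        B * δ * (2 * K ^ M * (K ^ o * ‖T‖ ^ k)) +
          2 * K ^ (M + 2) * (K * ‖T‖) ^ (k + 1) := by
      have h2 : ‖PowerSeries.coeff k W‖ * ‖T‖ ^ k = ‖PowerSeries.coeff k W * T ^ k‖ := by
        rw [norm_mul, norm_pow]
      rw [h2]
      have h3 : PowerSeries.coeff k W * T ^ k =
          evz T W - (evz T W - PowerSeries.coeff k W * T ^ k) := by ring
      rw [h3]
      refine (norm_sub_le _ _).trans (add_le_add (hev2.trans ?_) ht1)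
      refine mul_le_mul_of_nonneg_left ?_ (by positivity)
      exact ht2.trans (mul_le_mul_of_nonneg_left hok (by positivity))
    have h4 : B * δ * (2 * K ^ M * (K ^ o * ‖T‖ ^ k)) +
          2 * K ^ (M + 2) * (K * ‖T‖) ^ (k + 1) =
        (2 * B * δ * K ^ (M + o) + 2 * K ^ (M + 3 + k) * ‖T‖) * ‖T‖ ^ k := by
      ring
    rw [h4] at h1
    have h5 := le_of_mul_le_mul_right h1 hTk
    refine h5.trans ?_
    have h6 : 2 * B * δ * K ^ (M + o) ≤ K ^ (M + 4 + o) * δ := by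
      have h7 : K * K ^ (M + o) ≤ K ^ (M + 4 + o) := by
        rw [← pow_succ']
        exact pow_le_pow_right₀ hK1 (by omega)
      have h8 : (0 : ℝ) ≤ K ^ (M + o) := by positivity
      calc 2 * B * δ * K ^ (M + o) = (2 * B) * K ^ (M + o) * δ := by ring
        _ ≤ K * K ^ (M + o) * δ :=
            mul_le_mul_of_nonneg_right (mul_le_mul_of_nonneg_right hKB h8) hδ0
        _ ≤ K ^ (M + 4 + o) * δ := mul_le_mul_of_nonneg_right h7 hδ0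
    have h9 : 2 * K ^ (M + 3 + k) * ‖T‖ ≤ K ^ (M + 4 + o) * ‖T‖ := by
      refine mul_le_mul_of_nonneg_right ?_ hT0
      calc 2 * K ^ (M + 3 + k) ≤ K * K ^ (M + 3 + k) :=
            mul_le_mul_of_nonneg_right (by linarith) (by positivity)
        _ = K ^ (M + 4 + k) := by ring
        _ ≤ K ^ (M + 4 + o) := pow_le_pow_right₀ hK1 (by omega)
    rw [mul_add]
    linarith
  have hfin : ‖PowerSeries.coeff k W‖ * (K ^ (k + M + 2)) ^ (d * r) ≤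
      K ^ E * (‖T‖ + δ) := by
    have h1 : (K ^ (k + M + 2)) ^ (d * r) ≤ K ^ ((o + M + 2) * (d * r)) := by
      rw [← pow_mul]
      exact pow_le_pow_right₀ hK1 (Nat.mul_le_mul_right _ (by omega))
    have hTd : 0 ≤ ‖T‖ + δ := by linarith
    calc ‖PowerSeries.coeff k W‖ * (K ^ (k + M + 2)) ^ (d * r) ≤
        (K ^ (M + 4 + o) * (‖T‖ + δ)) * K ^ ((o + M + 2) * (d * r)) :=
          mul_le_mul hmain h1 (by positivity) (by positivity)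
      _ = K ^ (M + 4 + o + (o + M + 2) * (d * r)) * (‖T‖ + δ) := by
          rw [pow_add K (M + 4 + o)]
          ring
      _ ≤ K ^ E * (‖T‖ + δ) := by
          refine mul_le_mul_of_nonneg_right (pow_le_pow_right₀ hK1 ?_) hTd
          rw [hE, mul_add, mul_one]
          have h2 : (o + M + 2) * (d * r) ≤ (e * M + M + 4) * (d * r) :=
            Nat.mul_le_mul_right _ (by omega)
          omega
  linarith

end Pool.Agent.H56.GN
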