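import Pool.Agent.H98.XG.Defs

/-!
# [H56 GN] MP_821da1_nt, THEOREM XG, chapter GEN: the points near `θ` are generic. Definitions

THEOREM `gen` (file ASM): `GEN F θ` (`Pool/Agent/H98/XG/Defs.lean`): for `F` with `HypG n m F`, a real root `θ` of `topm n m F` of
degree at least three over `ℚ`, `Q, j ≥ 1` there is `c1 > 0` such that for every `d` there are `ε > 0`, `A0` with: at every integer
point `(a, x, y)` of the surface with `a ≥ A0`, `|y| ≤ |x|`, `a^j ≤ |x|^Q ≤ a^(j+1)`, `|y/x - θ| ≤ c1` every `G ≠ 0` in `ℤ[t][X]` of degrees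
at most `d` with `G(a, x) = 0` has a coefficient `≥ a^ε`.

Proof. Suppose all coefficients of `G` are at most `H`, `H` a small power of `a`.
(1) GFC: we may take `G` irreducible, of positive degree in `t` and in `X`.
(2) ELM: `R = Res_t(G, F) ≠ 0` in `ℤ[x, y]`, degree `≤ c`, coefficients `≤ H^c`, `R(x, y) = 0`.
(3) FCP: an irreducible factor `R1` of `R` with `R1(x, y) = 0`, coefficients `≤ H^c`, containing `y`.
(4) NER: `|y/x - θ| ≤ C (1/a + 1/|x|)`.
(5) RDP: the curve `R1 = 0` is brought into normal form (`redB`: `u = y + x^M`, `M = D + 1`, `z = a0 x`), the integer point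
lies on a branch `z/u = w(T)`, `s = (q T)^e = 1/u`. On this branch `y/x = nuS/deS`, `nuS = a0^M s^(M-1) - w^M`,
`deS = a0^(M-1) s^(M-1) w` (EVV). The coefficients are algebraic integers of bounded degree whose conjugates are at most `K^(k+M)`,
`K` a power of `H` (GRO, LOW, LIO): by Liouville's inequality the power series `b0 nuS - b0 θ deS`, whose value is
`b0 (y/x - θ) deS(T)`, vanishes to an order larger than the order `o` of `deS` (CMP), so `θ = coeff o nuS / coeff o deS`. Every
automorphism `T ↦ ζ T`, `σ` of the coefficients which fixes the branch `w` fixes `nuS, deS`, so fixes `θ` (FXD): the residue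
field of the point at infinity contains `θ`, and the orbit of the branch is labelled by the conjugates of `b0 θ` (LAB).
(6) `fix_all` (`Pool/Agent/H8/TM/MXB.lean`) for the fixed polynomial `q` (QTH): `|x|` is bounded. Contradiction for large `a`.

`nuS M a q e w`, `deS M a q e w`: the two series over any ring. `Tht r g b0 θ B`: `g` monic of degree `r` with the root `b0 θ`,
all roots at most `B`. `rt : ℤ[t][x][y] → ℤ[x, y][t]`.
-/

namespace Pool.Agent.H56.GN

open Finset Polynomial Pool.Agent.H37.TE Pool.Agent.H98.TE Pool.Agent.H4.TP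

/-- `a^M s^(M-1) - w^M`, `s = (q T)^e` -/
noncomputable def nuS {S : Type*} [CommRing S] (M : ℕ) (a : ℤ) (q e : ℕ) (w : PowerSeries S) :
    PowerSeries S :=
  PowerSeries.C ((a : S) ^ M) * ((PowerSeries.C (q : S) * PowerSeries.X) ^ e) ^ (M - 1) - w ^ M

/-- `a^(M-1) s^(M-1) w`, `s = (q T)^e` -/
noncomputable def deS {S : Type*} [CommRing S] (M : ℕ) (a : ℤ) (q e : ℕ) (w : PowerSeries S) :
    PowerSeries S :=
  PowerSeries.C ((a : S) ^ (M - 1)) * ((PowerSeries.C (q : S) * PowerSeries.X) ^ e) ^ (M - 1) * w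

/-- `g` is monic of degree `r`, `g(b0 θ) = 0`, all complex roots of `g` are at most `B` -/
structure Tht (r : ℕ) (g : ℤ[X]) (b0 : ℤ) (θ : ℝ) (B : ℕ) : Prop where
  monic : g.Monic
  deg : g.natDegree = r
  ne : b0 ≠ 0
  bB : |b0| ≤ (B : ℤ)
  B1 : 1 ≤ B
  root : aeval ((b0 : ℂ) * (θ : ℂ)) g = 0
  le : ∀ z : ℂ, aeval z g = 0 → ‖z‖ ≤ B

/-- `ℤ[t][x][y] → ℤ[x, y][t]` -/
noncomputable def rt : ℤ[X][X][X] →+* (MvPolynomial (Fin 2) ℤ)[X] :=
  eval₂RingHom (eval₂RingHom (eval₂RingHom (Int.castRingHom _) X) (C (MvPolynomial.X 0)))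
    (C (MvPolynomial.X 1))

/-- all degrees of `G ∈ ℤ[t][X]` at most `d`, all coefficients at most `H` -/
def Bnd (d H : ℕ) (G : ℤ[X][X]) : Prop :=
  G.natDegree ≤ d ∧ (∀ i, (G.coeff i).natDegree ≤ d) ∧ ∀ i j, |(G.coeff i).coeff j| ≤ (H : ℤ)

end Pool.Agent.H56.GN
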