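import Pool.Agent.H56.GN.ACT

/-! # [H56 GN FXD] The stabiliser of the branch fixes `b0 θ`

In `AA` (the map `AA → ℂ` is injective; `map_nuS, map_deS`, `PowerSeries.coeff_map` with `φ = algebraMap AA ℂ`, `hξ`): `N = coeff o (nuS M a q e ξ)`, `D = coeff o (deS M a q e ξ)`, `D ≠ 0`, `b0 N = β D`.
`act_nuS, act_deS` and `act σ ζ ξ = ξ`: `act σ ζ (nuS ..) = nuS ..`, so by `coeff_act`: `ζ^o σ N = N`, `ζ^o σ D = D`. Apply `σ` to `b0 N = β D` and multiply by `ζ^o`: `b0 N = σ β D` (`map_mul, map_intCast`).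
So `(σ β - β) D = 0`, `σ β = β`. -/

namespace Pool.Agent.H56.GN

open Finset Polynomial Pool.Agent.H87.SA2 Pool.Agent.H34.AC

theorem fxd {M : ℕ} {a b0 : ℤ} {q e o : ℕ} {ξ : PowerSeries AA} {β : AA} {θ : ℝ}
    (hβ : (β : ℂ) = (b0 : ℂ) * (θ : ℂ))
    (h1 : PowerSeries.coeff o (deS M a q e (ξ.map (algebraMap AA ℂ))) ≠ 0)
    (h2 : (b0 : ℂ) * PowerSeries.coeff o (nuS M a q e (ξ.map (algebraMap AA ℂ))) =
      (b0 : ℂ) * (θ : ℂ) * PowerSeries.coeff o (deS M a q e (ξ.map (algebraMap AA ℂ))))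
    (σ : AA ≃ₐ[ℚ] AA) {ζ : AA} (hζ : ζ ^ e = 1) (h : act σ ζ ξ = ξ) : σ β = β := by
  set N : AA := PowerSeries.coeff o (nuS M a q e ξ) with hN
  set D : AA := PowerSeries.coeff o (deS M a q e ξ) with hD
  have e1 : PowerSeries.coeff o (nuS M a q e (ξ.map (algebraMap AA ℂ))) = algebraMap AA ℂ N := by
    rw [← map_nuS, PowerSeries.coeff_map]
  have e2 : PowerSeries.coeff o (deS M a q e (ξ.map (algebraMap AA ℂ))) = algebraMap AA ℂ D := by
    rw [← map_deS, PowerSeries.coeff_map]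
  rw [e2] at h1
  rw [e1, e2, ← hβ] at h2
  have hinj : Function.Injective (algebraMap AA ℂ) := (algebraMap AA ℂ).injective
  have hD0 : D ≠ 0 := by
    intro h0
    apply h1
    rw [h0, map_zero]
  have h3 : (b0 : AA) * N = β * D := by
    apply hinj
    rw [map_mul, map_mul, map_intCast]
    exact h2
  have h4 : ζ ^ o * σ N = N := by
    have h5 := congrArg (PowerSeries.coeff o) (act_nuS σ hζ M a q ξ)
    rw [coeff_act, h] at h5
    exact h5
  have h5 : ζ ^ o * σ D = D := by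
    have h6 := congrArg (PowerSeries.coeff o) (act_deS σ hζ M a q ξ)
    rw [coeff_act, h] at h6
    exact h6
  have h6 : (b0 : AA) * σ N = σ β * σ D := by
    have := congrArg σ h3
    rwa [map_mul, map_mul, map_intCast] at this
  have h7 : (b0 : AA) * N = σ β * D := by
    calc (b0 : AA) * N = (b0 : AA) * (ζ ^ o * σ N) := by rw [h4]
      _ = ζ ^ o * ((b0 : AA) * σ N) := by ring
      _ = ζ ^ o * (σ β * σ D) := by rw [h6]
      _ = σ β * (ζ ^ o * σ D) := by ring
      _ = σ β * D := by rw [h5]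
  have h8 : σ β * D = β * D := by rw [← h7, h3]
  exact mul_right_cancel₀ hD0 h8

end Pool.Agent.H56.GN
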