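import Pool.Agent.H56.GN.Defs
import Pool.Agent.H52.AC.UB

/-! # [H56 GN GRO] Growth and integrality of the coefficients

Over `ℂ`: `nuS M a q e w = C (a^M) * uu q e w (M - 1) 0 0 - uu q e w M 0 M`, `deS M a q e w = C (a^(M-1)) * uu q e w M 0 1` (`uu q e w D a b = ((C q * X)^e)^(D-a-b) * w^b`,
`Pool/Agent/H52/AC/Defs.lean`; `M - 0 - M = 0`). `uu_le` (`Pool/Agent/H52/AC/UB.lean`): `‖coeff m (uu q e w D a b)‖ ≤ (2 q R)^(m + b)`.
So `‖coeff k nuS‖ ≤ |a|^M (2qR)^k + (2qR)^(k+M) ≤ 2 K^(k+M)` (`|a| ≥ 1` real, `1 ≤ 2 q R ≤ K`, `|a| ≤ K`), `‖coeff k deS‖ ≤ |a|^(M-1) (2qR)^(k+1) ≤ K^(k+M)`.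
Integrality: the power series with integral coefficients are closed under `+, -, *, ^` (`PowerSeries.coeff_mul`, `IsIntegral.sum`, `IsIntegral.mul`; or: they are the range of
`PowerSeries.map (algebraMap (integralClosure ℤ ℂ) ℂ)`, a subring: lift `w` and use that `nuS, deS` commute with `map`), integers are integral. -/

namespace Pool.Agent.H56.GN

open Finset Polynomial Pool.Agent.H52.AC

variable {w : PowerSeries ℂ} {R K : ℝ} {q e M : ℕ} {a : ℤ}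

private theorem nuS_uu (M q e : ℕ) (a : ℤ) (w : PowerSeries ℂ) :
    nuS M a q e w = PowerSeries.C ((a : ℂ) ^ M) * uu q e w (M - 1) 0 0 - uu q e w M 0 M := by
  unfold nuS uu
  rw [pow_zero, mul_one, Nat.sub_zero, Nat.sub_zero, Nat.sub_zero, Nat.sub_self, pow_zero, one_mul]

private theorem deS_uu (M q e : ℕ) (a : ℤ) (w : PowerSeries ℂ) :
    deS M a q e w = PowerSeries.C ((a : ℂ) ^ (M - 1)) * uu q e w M 0 1 := by
  unfold deS uu
  rw [pow_one, Nat.sub_zero, mul_assoc]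

private theorem gro_bds (hR : 1 ≤ R) (hq : 1 ≤ q) (ha : a ≠ 0)
    (hK : 2 * q * R * |(a : ℝ)| ≤ K) :
    0 ≤ 2 * q * R ∧ 2 * q * R ≤ K ∧ |(a : ℝ)| ≤ K := by
  have hq1 : (1 : ℝ) ≤ q := by exact_mod_cast hq
  have ha1 : (1 : ℝ) ≤ |(a : ℝ)| := by
    have h1 : (1 : ℤ) ≤ |a| := Int.one_le_abs ha
    have h2 : ((1 : ℤ) : ℝ) ≤ ((|a| : ℤ) : ℝ) := Int.cast_le.2 h1
    rw [Int.cast_abs, Int.cast_one] at h2
    exact h2
  have h3 : (1 : ℝ) ≤ q * R := by nlinarith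
  have h4 : (1 : ℝ) ≤ 2 * q * R := by nlinarith
  refine ⟨by linarith, ?_, ?_⟩
  · refine le_trans ?_ hK
    exact le_mul_of_one_le_right (by linarith) ha1
  · refine le_trans ?_ hK
    exact le_mul_of_one_le_left (abs_nonneg _) h4

theorem nuS_le (hR : 1 ≤ R) (hq : 1 ≤ q) (ha : a ≠ 0) (hM : 1 ≤ M) (hK : 2 * q * R * |(a : ℝ)| ≤ K)
    (hw : ∀ m, ‖PowerSeries.coeff m w‖ ≤ R ^ (m + 1)) (k : ℕ) :
    ‖PowerSeries.coeff k (nuS M a q e w)‖ ≤ 2 * K ^ (k + M) := by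
  obtain ⟨h0, h1, h2⟩ := gro_bds hR hq ha hK
  have hK0 : 0 ≤ K := h0.trans h1
  rw [nuS_uu, map_sub, PowerSeries.coeff_C_mul, two_mul]
  refine (norm_sub_le _ _).trans (add_le_add ?_ ?_)
  · rw [norm_mul, norm_pow, Complex.norm_intCast, add_comm k M, pow_add]
    have h3 := uu_le (e := e) hq hR hw (M - 1) 0 0 k
    rw [add_zero] at h3
    exact mul_le_mul (pow_le_pow_left₀ (abs_nonneg _) h2 M)
      (h3.trans (pow_le_pow_left₀ h0 h1 k)) (norm_nonneg _) (pow_nonneg hK0 _)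
  · exact (uu_le (e := e) hq hR hw M 0 M k).trans (pow_le_pow_left₀ h0 h1 _)

theorem deS_le (hR : 1 ≤ R) (hq : 1 ≤ q) (ha : a ≠ 0) (hM : 1 ≤ M) (hK : 2 * q * R * |(a : ℝ)| ≤ K)
    (hw : ∀ m, ‖PowerSeries.coeff m w‖ ≤ R ^ (m + 1)) (k : ℕ) :
    ‖PowerSeries.coeff k (deS M a q e w)‖ ≤ K ^ (k + M) := by
  obtain ⟨h0, h1, h2⟩ := gro_bds hR hq ha hK
  have hK0 : 0 ≤ K := h0.trans h1
  rw [deS_uu, PowerSeries.coeff_C_mul, norm_mul, norm_pow, Complex.norm_intCast]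
  have h3 : k + M = (M - 1) + (k + 1) := by omega
  rw [h3, pow_add]
  exact mul_le_mul (pow_le_pow_left₀ (abs_nonneg _) h2 _)
    ((uu_le (e := e) hq hR hw M 0 1 k).trans (pow_le_pow_left₀ h0 h1 _)) (norm_nonneg _)
    (pow_nonneg hK0 _)

/-- the power series with integral coefficients -/
private noncomputable def gI : Subring (PowerSeries ℂ) :=
  (PowerSeries.map (algebraMap (integralClosure ℤ ℂ) ℂ)).range

private theorem int_mem (hw : ∀ m, IsIntegral ℤ (PowerSeries.coeff m w)) : w ∈ gI :=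
  ⟨PowerSeries.mk fun m => ⟨PowerSeries.coeff m w, hw m⟩, by
    ext m
    rw [PowerSeries.coeff_map, PowerSeries.coeff_mk]
    rfl⟩

private theorem mem_int (h : w ∈ gI) (m : ℕ) : IsIntegral ℤ (PowerSeries.coeff m w) := by
  obtain ⟨v, rfl⟩ := h
  rw [PowerSeries.coeff_map]
  exact (PowerSeries.coeff m v).2

private theorem C_mem (z : ℤ) : PowerSeries.C (z : ℂ) ∈ gI :=
  ⟨PowerSeries.C (z : integralClosure ℤ ℂ), by rw [PowerSeries.map_C, map_intCast]⟩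

private theorem X_mem : (PowerSeries.X : PowerSeries ℂ) ∈ gI :=
  ⟨PowerSeries.X, PowerSeries.map_X _⟩

private theorem s_mem (q e n : ℕ) :
    ((PowerSeries.C (q : ℂ) * PowerSeries.X) ^ e) ^ n ∈ gI := by
  refine pow_mem (pow_mem (mul_mem ?_ X_mem) _) _
  have h := C_mem (q : ℤ)
  rw [Int.cast_natCast] at h
  exact h

theorem nuS_int (hw : ∀ m, IsIntegral ℤ (PowerSeries.coeff m w)) (k : ℕ) :
    IsIntegral ℤ (PowerSeries.coeff k (nuS M a q e w)) := by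
  refine mem_int ?_ k
  unfold nuS
  refine sub_mem (mul_mem ?_ (s_mem q e _)) (pow_mem (int_mem hw) _)
  rw [map_pow]
  exact pow_mem (C_mem a) _

theorem deS_int (hw : ∀ m, IsIntegral ℤ (PowerSeries.coeff m w)) (k : ℕ) :
    IsIntegral ℤ (PowerSeries.coeff k (deS M a q e w)) := by
  refine mem_int ?_ k
  unfold deS
  refine mul_mem (mul_mem ?_ (s_mem q e _)) (int_mem hw)
  rw [map_pow]
  exact pow_mem (C_mem a) _

end Pool.Agent.H56.GN
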