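import Pool.Agent.H56.GN.Defs
import Pool.Agent.H34.AC.KapA
import Pool.Agent.H97.FB.Defs2

/-! # [H56 GN LAB] Labels of the orbit of a branch, from an element fixed by its stabiliser

`lab_pt`: copy the private `rdm_lab` of `Pool/Agent/H4/SX/RDX.lean` from the comment line the orbit on (the first half there produces `θ ∈ Kf e (ξ i0)`; here `β` with `hfix` is given):
for `j` in the orbit of `i0` under all `act σ ζ`, `ζ^e = 1`, choose `(s j, z j)` with `act (s j) (z j) (ξ i0) = ξ j`, `τ j = s j β`. `hs, hinj` are as in `exists_xi` (`Pool/Agent/H34/AC/KapA.lean`) — here given.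
`lbg`: the end of the proof of `redX` in the same file (`Rts g θ`: every root `τ j`, `j ∈ S`, is a `θ l`; `θ` injective). -/

namespace Pool.Agent.H56.GN

open Finset Polynomial Pool.Agent.H87.SA2 Pool.Agent.H34.AC Pool.Agent.H97.NW Pool.Agent.H97.FB
  Pool.Agent.H97.XC

theorem lab_pt {f : ℤ[X][X]} {d : ℕ} (pd : PData f d) {ξ : Fin d → PowerSeries AA}
    (hξ : ∀ i, (ξ i).map (algebraMap AA ℂ) = pd.x i)
    (hs : f.map (tKq AA pd.e pd.q) = ∏ i, (X - C (ξ i))) (hinj : Function.Injective ξ) (g : ℤ[X])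
    (i0 : Fin d) (β : AA) (hβ : aeval (β : ℂ) g = 0)
    (hfix : ∀ (σ : AA ≃ₐ[ℚ] AA) (ζ : AA), ζ ^ pd.e = 1 → act σ ζ (ξ i0) = ξ i0 → σ β = β) :
    ∃ (S : Finset (Fin d)) (τ : Fin d → ℂ), i0 ∈ S ∧ (∀ j ∈ S, aeval (τ j) g = 0) ∧
      (∀ (σ : AA →+* ℂ), ∀ i ∈ S, ∀ j : Fin d,
        (∀ (m : ℕ) (a : AA), (a : ℂ) = PowerSeries.coeff m (pd.x i) →
          σ a = PowerSeries.coeff m (pd.x j)) →
        j ∈ S ∧ ∀ a : AA, (a : ℂ) = τ i → σ a = τ j) ∧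
      (∀ (ζ : ℂ), ∀ i ∈ S, ∀ j : Fin d, ζ ^ pd.e = 1 →
        PowerSeries.rescale ζ (pd.x i) = pd.x j → j ∈ S ∧ τ j = τ i) := by
  classical
  obtain ⟨e, hee⟩ : ∃ e, e = pd.e := ⟨_, rfl⟩
  have he : 1 ≤ e := hee ▸ pd.e_pos
  have hne0 : ∀ ζ : AA, ζ ^ e = 1 → ζ ≠ 0 := by
    intro ζ h h0
    rw [h0, zero_pow (by omega)] at h
    exact zero_ne_one h
  rw [← hee] at hs hfix
  have hcoe2 : ∀ i m, ((PowerSeries.coeff m (ξ i) : AA) : ℂ) = PowerSeries.coeff m (pd.x i) := by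
    intro i m
    rw [← hξ, PowerSeries.coeff_map]
    rfl
  have hlift : ∀ ζ : ℂ, ζ ^ e = 1 → ∃ ζ' : AA, (ζ' : ℂ) = ζ ∧ ζ' ^ e = 1 := by
    intro ζ hζ
    have hζA : ζ ∈ AA := by
      rw [mem_algebraicClosure_iff]
      have h2 : IsIntegral ℚ (ζ ^ e) := by
        rw [hζ]
        exact isIntegral_one
      exact (IsIntegral.of_pow he h2).isAlgebraic
    refine ⟨⟨ζ, hζA⟩, rfl, ?_⟩
    apply Subtype.ext
    rw [SubmonoidClass.coe_pow, hζ]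
    rfl
  have hθA : aeval β g = 0 := by
    apply (algebraMap AA ℂ).injective
    rw [map_zero, ← aeval_algebraMap_apply]
    exact hβ
  -- the orbit
  have hsel : ∀ j : Fin d, ∃ (σ : AA ≃ₐ[ℚ] AA) (ζ : AA),
      (∃ (σ : AA ≃ₐ[ℚ] AA) (ζ : AA), ζ ^ e = 1 ∧ act σ ζ (ξ i0) = ξ j) →
        ζ ^ e = 1 ∧ act σ ζ (ξ i0) = ξ j := by
    intro j
    by_cases hj : ∃ (σ : AA ≃ₐ[ℚ] AA) (ζ : AA), ζ ^ e = 1 ∧ act σ ζ (ξ i0) = ξ j
    · obtain ⟨σ, ζ, h⟩ := hj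
      exact ⟨σ, ζ, fun _ => h⟩
    · exact ⟨AlgEquiv.refl, 1, fun h => absurd h hj⟩
  choose s z hsz using hsel
  -- equivariance
  have hmain : ∀ (σ : AA ≃ₐ[ℚ] AA) (ζ : AA) (i j : Fin d), ζ ^ e = 1 → act σ ζ (ξ i) = ξ j →
      (∃ (σ : AA ≃ₐ[ℚ] AA) (ζ : AA), ζ ^ e = 1 ∧ act σ ζ (ξ i0) = ξ i) →
      (∃ (σ : AA ≃ₐ[ℚ] AA) (ζ : AA), ζ ^ e = 1 ∧ act σ ζ (ξ i0) = ξ j) ∧
        σ (s i β) = s j β := by
    intro σ ζ i j h1 h2 hi
    obtain ⟨h3, h4⟩ := hsz i hi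
    have hj : ∃ (σ : AA ≃ₐ[ℚ] AA) (ζ : AA), ζ ^ e = 1 ∧ act σ ζ (ξ i0) = ξ j := by
      refine ⟨(s i).trans σ, ζ * σ (z i), ?_, ?_⟩
      · rw [mul_pow, ← map_pow, h1, h3, map_one, mul_one]
      · rw [← act_act, h4, h2]
    refine ⟨hj, ?_⟩
    obtain ⟨h5, h6⟩ := hsz j hj
    have h7 : act (s j).symm ((s j).symm (z j)⁻¹) (act σ ζ (act (s i) (z i) (ξ i0))) = ξ i0 := by
      rw [h4, h2]
      exact act_symm (hne0 _ h5) h6
    rw [act_act, act_act] at h7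
    have h8 := hfix _ _ ?_ h7
    · rw [AlgEquiv.trans_apply, AlgEquiv.trans_apply] at h8
      have h9 := congrArg (s j) h8
      rw [AlgEquiv.apply_symm_apply] at h9
      exact h9
    · rw [mul_pow, mul_pow, ← map_pow, ← map_pow, ← map_pow, inv_pow, h3, h5, h1]
      simp
  have hself : ∃ (σ : AA ≃ₐ[ℚ] AA) (ζ : AA), ζ ^ e = 1 ∧ act σ ζ (ξ i0) = ξ i0 :=
    ⟨AlgEquiv.refl, 1, one_pow e, by
      refine PowerSeries.ext fun m => ?_
      rw [coeff_act, one_pow, one_mul]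
      rfl⟩
  refine ⟨Finset.univ.filter fun j => ∃ (σ : AA ≃ₐ[ℚ] AA) (ζ : AA), ζ ^ e = 1 ∧
    act σ ζ (ξ i0) = ξ j, fun j => ((s j β : AA) : ℂ), ?_, ?_, ?_, ?_⟩
  · rw [Finset.mem_filter]
    exact ⟨Finset.mem_univ _, hself⟩
  · intro j _
    have h1 : aeval (s j β) g = 0 := by
      have h2 := congrArg (s j) hθA
      rw [map_zero] at h2
      have h3 : s j (aeval β g) = aeval (s j β) g := by
        rw [aeval_def, aeval_def, ← RingHom.coe_coe, hom_eval₂]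
        congr 1
        exact Subsingleton.elim _ _
      rw [← h3, h2]
    have h2 := congrArg (algebraMap AA ℂ) h1
    rw [map_zero, ← aeval_algebraMap_apply] at h2
    exact h2
  · intro σ i hi j h
    rw [Finset.mem_filter] at hi
    obtain ⟨τ, hτ⟩ := aa_equiv σ
    have h1 : act τ 1 (ξ i) = ξ j := by
      refine PowerSeries.ext fun m => ?_
      rw [coeff_act, one_pow, one_mul]
      apply Subtype.ext
      rw [hτ, h m _ (hcoe2 i m), hcoe2]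
    obtain ⟨h2a, h2⟩ := hmain τ 1 i j (one_pow e) h1 hi.2
    refine ⟨Finset.mem_filter.2 ⟨Finset.mem_univ j, h2a⟩, fun a ha => ?_⟩
    have h3 : a = s i β := Subtype.ext ha
    rw [← hτ, h3, h2]
  · intro ζ i hi j hζ h
    rw [Finset.mem_filter] at hi
    rw [← hee] at hζ
    obtain ⟨ζ', hζ', h1⟩ := hlift ζ hζ
    have h2 : act AlgEquiv.refl ζ' (ξ i) = ξ j := by
      refine PowerSeries.ext fun m => ?_
      rw [coeff_act]
      apply Subtype.ext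
      have h3 := congrArg (PowerSeries.coeff m) h
      rw [PowerSeries.coeff_rescale] at h3
      rw [hcoe2, ← h3, ← hζ', ← hcoe2]
      rfl
    obtain ⟨h4a, h4⟩ := hmain AlgEquiv.refl ζ' i j h1 h2 hi.2
    refine ⟨Finset.mem_filter.2 ⟨Finset.mem_univ j, h4a⟩, ?_⟩
    have h5 := congrArg (algebraMap AA ℂ) h4
    exact h5.symm

theorem lbg {ν : ℕ} (P : Ptd ν) {g : ℤ[X]} {S : Finset (Fin P.d)} {τ : Fin P.d → ℂ} (s1 : P.i ∈ S)
    (s2 : ∀ j ∈ S, aeval (τ j) g = 0)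
    (s3 : ∀ (σ : AA →+* ℂ), ∀ i ∈ S, ∀ j : Fin P.d,
      (∀ (m : ℕ) (a : AA), (a : ℂ) = PowerSeries.coeff m (P.C.pd.x i) →
        σ a = PowerSeries.coeff m (P.C.pd.x j)) →
      j ∈ S ∧ ∀ a : AA, (a : ℂ) = τ i → σ a = τ j)
    (s4 : ∀ (ζ : ℂ), ∀ i ∈ S, ∀ j : Fin P.d, ζ ^ P.C.pd.e = 1 →
      PowerSeries.rescale ζ (P.C.pd.x i) = P.C.pd.x j → j ∈ S ∧ τ j = τ i)
    {n : ℕ} {θ : Fin n → ℂ} (hθ : Rts g θ) : ∃ l0, Nonempty (LbG P (v1 θ) l0) := by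
  have hl : ∀ j ∈ S, ∃ l : Fin n, τ j = θ l := by
    intro j hj
    have h1 := s2 j hj
    have h2 : (g.map (Int.castRingHom ℂ)).eval (τ j) = 0 := by
      rw [eval_map]
      exact h1
    rw [hθ.1, eval_prod] at h2
    obtain ⟨l, -, hl⟩ := Finset.prod_eq_zero_iff.mp h2
    refine ⟨l, ?_⟩
    rw [eval_sub, eval_X, eval_C] at hl
    exact sub_eq_zero.mp hl
  obtain ⟨li, hli⟩ := hl P.i s1
  have hl' : ∀ j, ∃ l : Fin n, j ∈ S → τ j = θ l := by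
    intro j
    by_cases hj : j ∈ S
    · obtain ⟨l, h⟩ := hl j hj
      exact ⟨l, fun _ => h⟩
    · exact ⟨li, fun h => absurd h hj⟩
  choose th hth using hl'
  refine ⟨th P.i, ⟨⟨S, th, s1, rfl, ?_, ?_⟩⟩⟩
  · intro σ i' hi' j hj
    obtain ⟨h5, h6⟩ := s3 σ i' hi' j hj
    refine ⟨h5, fun u a' ha' => ?_⟩
    change (a' : ℂ) = θ (th i') at ha'
    change σ a' = θ (th j)
    rw [← hth i' hi'] at ha'
    rw [← hth j h5]
    exact h6 a' ha'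
  · intro ζ' hζ' i' hi' j hj
    obtain ⟨h5, h6⟩ := s4 ζ' i' hi' j hζ' hj
    refine ⟨h5, hθ.2 ?_⟩
    rw [← hth j h5, ← hth i' hi', h6]

end Pool.Agent.H56.GN
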