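import Pool.Agent.H34.AC.KapA

/-! # [H56 GN LIO] Liouville's inequality for an algebraic integer with known conjugates

`O` = the finite set of all `σ w`, `σ : AA ≃ₐ[ℚ] AA` (finite: `a ↦ (a : ℂ)` is injective with values in `S`): e.g.
`O := S.preimage (fun a : AA => (a : ℂ)) (injective).injOn |>.filter (fun z => ∃ σ : AA ≃ₐ[ℚ] AA, σ w = z)` (classical). Every `τ : AA ≃ₐ[ℚ] AA` maps `O`
into `O` injectively, so onto (`Finset.eq_of_subset_of_card_le`, `Finset.map`/`image` of `O` under `τ` is `O`); `P = ∏ z ∈ O, z` satisfies `τ P = P` for all `τ`.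
So `P ∈ IntermediateField.adjoin ℚ ∅ = ⊥` (`galA_mem ∅ P`, `Pool/Agent/H87/SA2/GALA.lean`; an embedding `AA →+* ℂ` comes from an automorphism, `aa_equiv`,
`Pool/Agent/H34/AC/KapA.lean`): `P = r` rational (`IntermediateField.adjoin_empty`, `IntermediateField.mem_bot`), integral over `ℤ` (`IsIntegral.prod`; the conjugates of an
integral element are integral: `IsIntegral.map` with `σ` as a `ℤ`-algebra hom, `hint` for `w` itself by `isIntegral_algebraMap_iff` / injectivity of `AA → ℂ`), so `r` is an integer (`IsIntegrallyClosed.isIntegral_iff`,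
as in `fam_liou`, `Pool/Agent/H97/XC/Liou.lean`), `≠ 0` as every `σ w ≠ 0`. So `1 ≤ ‖P‖ = ‖w‖ ∏_(z ∈ O, z ≠ w) ‖z‖ ≤ ‖w‖ A^(card O - 1) ≤ ‖w‖ A^(card S)` (`Finset.mul_prod_erase`,
`w = AlgEquiv.refl w ∈ O`, `card O ≤ card S`). -/

namespace Pool.Agent.H56.GN

open Finset Polynomial Pool.Agent.H87.SA2 Pool.Agent.H34.AC

theorem lio (w : AA) (hint : IsIntegral ℤ (w : ℂ)) (h0 : w ≠ 0) (S : Finset ℂ)
    (hS : ∀ σ : AA ≃ₐ[ℚ] AA, ((σ w : AA) : ℂ) ∈ S) {A : ℝ} (hA : 1 ≤ A) (hSA : ∀ z ∈ S, ‖z‖ ≤ A) :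
    1 ≤ ‖(w : ℂ)‖ * A ^ S.card := by
  classical
  have hinjC : Function.Injective (fun a : AA => (a : ℂ)) := Subtype.val_injective
  obtain ⟨O, hO⟩ : ∃ O : Finset AA, ∀ z, z ∈ O ↔ ∃ σ : AA ≃ₐ[ℚ] AA, σ w = z := by
    have hf : (Set.range fun σ : AA ≃ₐ[ℚ] AA => σ w).Finite := by
      apply Set.Finite.of_finite_image (f := fun a : AA => (a : ℂ))
      · apply (S.finite_toSet).subset
        rintro _ ⟨_, ⟨σ, rfl⟩, rfl⟩
        exact hS σ
      · exact hinjC.injOn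
    exact ⟨hf.toFinset, fun z => by simp⟩
  have hcard : O.card ≤ S.card := by
    rw [← Finset.card_image_of_injective O hinjC]
    apply Finset.card_le_card
    intro z hz
    obtain ⟨a, ha, rfl⟩ := Finset.mem_image.1 hz
    obtain ⟨σ, rfl⟩ := (hO a).1 ha
    exact hS σ
  have hOS : ∀ z ∈ O, ‖(z : ℂ)‖ ≤ A := by
    intro z hz
    obtain ⟨σ, rfl⟩ := (hO z).1 hz
    exact hSA _ (hS σ)
  obtain ⟨P, hP⟩ : ∃ P : AA, P = ∏ z ∈ O, z := ⟨_, rfl⟩
  have hfix : ∀ τ : AA ≃ₐ[ℚ] AA, τ P = P := by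
    intro τ
    rw [hP, map_prod]
    refine Finset.prod_equiv τ.toEquiv (fun z => ?_) (fun z _ => rfl)
    rw [hO, hO]
    constructor
    · rintro ⟨σ, rfl⟩
      exact ⟨σ.trans τ, rfl⟩
    · rintro ⟨σ, h⟩
      refine ⟨σ.trans τ.symm, ?_⟩
      rw [AlgEquiv.trans_apply, h]
      exact τ.symm_apply_apply z
  have hmem : P ∈ IntermediateField.adjoin ℚ (∅ : Set (algebraicClosure ℚ ℂ)) := by
    refine galA_mem ∅ P fun σ _ => ?_
    obtain ⟨τ, hτ⟩ := aa_equiv σ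
    rw [← hτ P, hfix τ]
  rw [IntermediateField.adjoin_empty, IntermediateField.mem_bot] at hmem
  obtain ⟨r, hr⟩ := hmem
  have hwint : IsIntegral ℤ w := by
    have h1 : IsIntegral ℤ (algebraMap AA ℂ w) := hint
    exact (isIntegral_algebraMap_iff (algebraMap AA ℂ).injective).1 h1
  have hPint : IsIntegral ℤ P := by
    rw [hP]
    refine IsIntegral.prod _ fun z hz => ?_
    obtain ⟨σ, rfl⟩ := (hO z).1 hz
    exact map_isIntegral_int (σ : AA →+* AA) hwint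
  have hrint : IsIntegral ℤ r := by
    rw [← hr] at hPint
    exact (isIntegral_algebraMap_iff (algebraMap ℚ AA).injective).1 hPint
  obtain ⟨n, hn⟩ := IsIntegrallyClosed.isIntegral_iff.1 hrint
  have hPn : P = (n : AA) := by
    rw [← hr, ← hn]
    simp
  have hP0 : P ≠ 0 := by
    rw [hP]
    refine Finset.prod_ne_zero_iff.2 fun z hz => ?_
    obtain ⟨σ, rfl⟩ := (hO z).1 hz
    rw [Ne, map_eq_zero]
    exact h0
  have hn0 : n ≠ 0 := by
    rintro rfl
    exact hP0 (by simpa using hPn)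
  have hw : w ∈ O := (hO w).2 ⟨AlgEquiv.refl, rfl⟩
  have h1 : 1 ≤ ‖(P : ℂ)‖ := by
    have h2 : (P : ℂ) = (n : ℂ) := by
      rw [hPn]
      rfl
    rw [h2, Complex.norm_intCast]
    have h3 : 1 ≤ |n| := Int.one_le_abs hn0
    exact_mod_cast h3
  have h2 : (P : ℂ) = (w : ℂ) * ∏ z ∈ O.erase w, (z : ℂ) := by
    have h3 : P = w * ∏ z ∈ O.erase w, z := by
      rw [hP, Finset.mul_prod_erase O (fun z => z) hw]
    have h4 := congrArg (algebraMap AA ℂ) h3
    rw [map_mul, map_prod] at h4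
    exact h4
  have hpos : 1 ≤ O.card := Finset.card_pos.2 ⟨w, hw⟩
  calc 1 ≤ ‖(P : ℂ)‖ := h1
    _ = ‖(w : ℂ)‖ * ∏ z ∈ O.erase w, ‖(z : ℂ)‖ := by rw [h2, norm_mul, norm_prod]
    _ ≤ ‖(w : ℂ)‖ * A ^ (O.erase w).card := by
        refine mul_le_mul_of_nonneg_left ?_ (norm_nonneg _)
        rw [← Finset.prod_const]
        exact Finset.prod_le_prod (fun _ _ => norm_nonneg _) fun z hz =>
          hOS z (Finset.mem_of_mem_erase hz)
    _ ≤ ‖(w : ℂ)‖ * A ^ S.card := by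
        refine mul_le_mul_of_nonneg_left (pow_le_pow_right₀ hA ?_) (norm_nonneg _)
        exact (Finset.card_le_card (Finset.erase_subset _ _)).trans hcard

end Pool.Agent.H56.GN
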