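import Pool.Agent.H56.GN.LIO
import Pool.Agent.H56.GN.ACT
import Pool.Agent.H56.GN.GRO

/-! # [H56 GN LOW] Lower bound for the coefficients

`exists_xi pd` (`Pool/Agent/H34/AC/KapA.lean`): `ξ i ∈ AA[[T]]` with `(ξ i).map (algebraMap AA ℂ) = pd.x i`, `hs`. `β ∈ AA` with `(β : ℂ) = b0 θ` (a root of the monic `g`: algebraic,
`mem_algebraicClosure_iff`). `W ∈ AA`: `W = b0 * coeff k (nuS M a q e (ξ i)) - β * coeff k (deS M a q e (ξ i))`, its value in `ℂ` is the given number (`map_nuS, map_deS`,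
`PowerSeries.coeff_map`), so `W ≠ 0`; integral (`nuS_int, deS_int, pd.integral`, `β` is a root of the monic `g`).
Conjugates: for `σ : AA ≃ₐ[ℚ] AA`, `act_root hs σ 1 (one_pow _) i`: `act σ 1 (ξ i) = ξ j`, so (`coeff_act`, `act_nuS`, `act_deS`) `σ (coeff k (nuS .. (ξ i))) = coeff k (nuS .. (ξ j))`, the same for `deS`;
`σ β` is a root of `g` (`aeval` and a ring hom over `ℤ`, as in `rdm_lab`, `Pool/Agent/H4/SX/RDX.lean`). So `σ W` is in the finite set `S` = image of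
`univ ×ˢ (g.map (Int.castRingHom ℂ)).roots.toFinset` under `(j, z) ↦ b0 * coeff k (nuS .. (pd.x j)) - z * coeff k (deS .. (pd.x j))`, `card S ≤ d r` (`card_image_le`, `card_product`,
`Multiset.toFinset_card_le`, `card_roots'`, degree `r` by `ht.deg` and monic). Every element of `S` is at most `B (2 K^(k+M)) + B K^(k+M) = 3 B K^(k+M) ≤ K^(k+M+2)` (`nuS_le, deS_le` with `R = pd.R`,
`pd.growth`, `pd.R_ge`, `pd.q_pos`; `ht.bB`, `ht.le`; `2 B ≤ K`, `K ≥ 2`: `3 B ≤ 2 K ≤ K^2`). `lio` with `A = K^(k+M+2) ≥ 1`, and `A^(card S) ≤ A^(d r)`. -/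

namespace Pool.Agent.H56.GN

open Finset Polynomial Pool.Agent.H87.SA2 Pool.Agent.H34.AC Pool.Agent.H52.AC

theorem low {f : ℤ[X][X]} {d : ℕ} (pd : PData f d) {r : ℕ} {g : ℤ[X]} {b0 : ℤ} {θ : ℝ} {B : ℕ}
    (ht : Tht r g b0 θ B) {M : ℕ} (hM : 1 ≤ M) {a : ℤ} (ha : a ≠ 0) {K : ℝ}
    (hK : 2 * pd.q * pd.R * |(a : ℝ)| ≤ K) (hKB : 2 * (B : ℝ) ≤ K) (i : Fin d) (k : ℕ)
    (h0 : (b0 : ℂ) * PowerSeries.coeff k (nuS M a pd.q pd.e (pd.x i)) -
      (b0 : ℂ) * (θ : ℂ) * PowerSeries.coeff k (deS M a pd.q pd.e (pd.x i)) ≠ 0) :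
    1 ≤ ‖(b0 : ℂ) * PowerSeries.coeff k (nuS M a pd.q pd.e (pd.x i)) -
      (b0 : ℂ) * (θ : ℂ) * PowerSeries.coeff k (deS M a pd.q pd.e (pd.x i))‖ *
        (K ^ (k + M + 2)) ^ (d * r) := by
  classical
  obtain ⟨ξ, hξ, hs, hinj⟩ := exists_xi pd
  have hR1 : 1 ≤ pd.R := by linarith [pd.R_ge]
  have hβI : IsIntegral ℤ ((b0 : ℂ) * (θ : ℂ)) := ⟨g, ht.monic, ht.root⟩
  have hβA : (b0 : ℂ) * (θ : ℂ) ∈ AA := by
    rw [mem_algebraicClosure_iff]
    exact (hβI.tower_top (A := ℚ)).isAlgebraic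
  obtain ⟨β, hβ⟩ : ∃ β : AA, (β : ℂ) = (b0 : ℂ) * (θ : ℂ) := ⟨⟨_, hβA⟩, rfl⟩
  have hn : ∀ j, ((PowerSeries.coeff k (nuS M a pd.q pd.e (ξ j)) : AA) : ℂ) =
      PowerSeries.coeff k (nuS M a pd.q pd.e (pd.x j)) := by
    intro j
    rw [← hξ, ← map_nuS, PowerSeries.coeff_map]
    rfl
  have hd : ∀ j, ((PowerSeries.coeff k (deS M a pd.q pd.e (ξ j)) : AA) : ℂ) =
      PowerSeries.coeff k (deS M a pd.q pd.e (pd.x j)) := by
    intro j
    rw [← hξ, ← map_deS, PowerSeries.coeff_map]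
    rfl
  obtain ⟨W, hW⟩ : ∃ W : AA, W = (b0 : AA) * PowerSeries.coeff k (nuS M a pd.q pd.e (ξ i)) -
      β * PowerSeries.coeff k (deS M a pd.q pd.e (ξ i)) := ⟨_, rfl⟩
  have hcast : ((b0 : AA) : ℂ) = (b0 : ℂ) := map_intCast (algebraMap AA ℂ) b0
  have hWc : (W : ℂ) = (b0 : ℂ) * PowerSeries.coeff k (nuS M a pd.q pd.e (pd.x i)) -
      (b0 : ℂ) * (θ : ℂ) * PowerSeries.coeff k (deS M a pd.q pd.e (pd.x i)) := by
    rw [← hn, ← hd, ← hβ, ← hcast, hW]
    rfl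
  have hroots : ∀ z : ℂ, z ∈ (g.map (Int.castRingHom ℂ)).roots.toFinset ↔ aeval z g = 0 := by
    intro z
    rw [Multiset.mem_toFinset, mem_roots', IsRoot.def, eval_map]
    constructor
    · exact fun h => h.2
    · exact fun h => ⟨(ht.monic.map _).ne_zero, h⟩
  obtain ⟨S, hS⟩ : ∃ S : Finset ℂ, S = ((Finset.univ : Finset (Fin d)) ×ˢ
      (g.map (Int.castRingHom ℂ)).roots.toFinset).image (fun p =>
        (b0 : ℂ) * PowerSeries.coeff k (nuS M a pd.q pd.e (pd.x p.1)) -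
          p.2 * PowerSeries.coeff k (deS M a pd.q pd.e (pd.x p.1))) := ⟨_, rfl⟩
  have hcard : S.card ≤ d * r := by
    rw [hS]
    refine Finset.card_image_le.trans ?_
    rw [Finset.card_product, Finset.card_univ, Fintype.card_fin]
    refine Nat.mul_le_mul le_rfl ?_
    refine (Multiset.toFinset_card_le _).trans ((card_roots' _).trans ?_)
    rw [ht.monic.natDegree_map, ht.deg]
  have hK2 : (2 : ℝ) ≤ K := by
    refine le_trans ?_ hKB
    have : (1 : ℝ) ≤ B := by exact_mod_cast ht.B1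
    linarith
  have hSA : ∀ z ∈ S, ‖z‖ ≤ K ^ (k + M + 2) := by
    intro z hz
    rw [hS, Finset.mem_image] at hz
    obtain ⟨⟨j, y⟩, hp, hz⟩ := hz
    rw [Finset.mem_product] at hp
    have hy : ‖y‖ ≤ B := ht.le y ((hroots y).1 hp.2)
    have h1 := nuS_le (w := pd.x j) (e := pd.e) hR1 pd.q_pos ha hM hK (pd.growth j) k
    have h2 := deS_le (w := pd.x j) (e := pd.e) hR1 pd.q_pos ha hM hK (pd.growth j) k
    have hb : ‖(b0 : ℂ)‖ ≤ B := by
      rw [Complex.norm_intCast]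
      have := ht.bB
      have h3 : ((|b0| : ℤ) : ℝ) ≤ ((B : ℤ) : ℝ) := by exact_mod_cast this
      push_cast at h3
      exact h3
    rw [← hz]
    refine (norm_sub_le _ _).trans ?_
    rw [norm_mul, norm_mul]
    have hKp : (0 : ℝ) < K ^ (k + M) := by positivity
    have h3 : ‖(b0 : ℂ)‖ * ‖PowerSeries.coeff k (nuS M a pd.q pd.e (pd.x j))‖ ≤
        B * (2 * K ^ (k + M)) := mul_le_mul hb h1 (norm_nonneg _) (Nat.cast_nonneg _)
    have h4 : ‖y‖ * ‖PowerSeries.coeff k (deS M a pd.q pd.e (pd.x j))‖ ≤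
        B * (K ^ (k + M)) := mul_le_mul hy h2 (norm_nonneg _) (Nat.cast_nonneg _)
    refine (add_le_add h3 h4).trans ?_
    rw [pow_add K (k + M) 2]
    have h5 : (B : ℝ) * 3 ≤ K ^ 2 := by nlinarith
    nlinarith
  have hσS : ∀ σ : AA ≃ₐ[ℚ] AA, ((σ W : AA) : ℂ) ∈ S := by
    intro σ
    obtain ⟨j, hj⟩ := act_root hs σ 1 (one_pow _) i
    have h1 : σ (PowerSeries.coeff k (nuS M a pd.q pd.e (ξ i))) =
        PowerSeries.coeff k (nuS M a pd.q pd.e (ξ j)) := by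
      rw [← hj, ← act_nuS σ (one_pow pd.e), coeff_act, one_pow, one_mul]
    have h2 : σ (PowerSeries.coeff k (deS M a pd.q pd.e (ξ i))) =
        PowerSeries.coeff k (deS M a pd.q pd.e (ξ j)) := by
      rw [← hj, ← act_deS σ (one_pow pd.e), coeff_act, one_pow, one_mul]
    have h3 : aeval (((σ β : AA)) : ℂ) g = 0 := by
      have hθA : aeval β g = 0 := by
        have h := ht.root
        rw [← hβ] at h
        have h' : aeval ((algebraMap AA ℂ) β) g = 0 := h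
        rw [aeval_algebraMap_apply] at h'
        exact (algebraMap AA ℂ).injective (h'.trans (map_zero _).symm)
      have h4 : aeval (σ β) g = 0 := by
        have h5 := congrArg σ hθA
        rw [map_zero] at h5
        have h6 : σ (aeval β g) = aeval (σ β) g := by
          rw [aeval_def, aeval_def, ← RingHom.coe_coe, hom_eval₂]
          congr 1
          exact Subsingleton.elim _ _
        rw [← h6, h5]
      have h5 := congrArg (algebraMap AA ℂ) h4
      rw [map_zero, ← aeval_algebraMap_apply] at h5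
      exact h5
    rw [hS, Finset.mem_image]
    refine ⟨(j, ((σ β : AA) : ℂ)), Finset.mem_product.2 ⟨Finset.mem_univ _, (hroots _).2 h3⟩, ?_⟩
    have h4 : σ W = (b0 : AA) * PowerSeries.coeff k (nuS M a pd.q pd.e (ξ j)) -
        σ β * PowerSeries.coeff k (deS M a pd.q pd.e (ξ j)) := by
      rw [hW, map_sub, map_mul, map_mul, map_intCast, h1, h2]
    rw [h4]
    simp only
    rw [← hn, ← hd, ← hcast]
    rfl
  have hWI : IsIntegral ℤ (W : ℂ) := by
    rw [hWc]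
    refine IsIntegral.sub (IsIntegral.mul ?_ (nuS_int (pd.integral i) k))
      (IsIntegral.mul hβI (deS_int (pd.integral i) k))
    exact isIntegral_algebraMap (R := ℤ) (A := ℂ) (x := b0)
  have hW0 : W ≠ 0 := by
    intro h
    apply h0
    rw [← hWc, h]
    rfl
  have hA1 : (1 : ℝ) ≤ K ^ (k + M + 2) := one_le_pow₀ (by linarith)
  have hfin := lio W hWI hW0 S hσS hA1 hSA
  rw [← hWc]
  refine hfin.trans ?_
  exact mul_le_mul_of_nonneg_left (pow_le_pow_right₀ hA1 hcard) (norm_nonneg _)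

end Pool.Agent.H56.GN
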