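import Pool.Agent.H56.GN.CMP
import Pool.Agent.H56.GN.FXD
import Pool.Agent.H56.GN.LAB
import Pool.Agent.H97.NW.RDX

/-! # [H56 GN RDP] From a curve to a labelled pointed curve: pointed version

As `redX` (`Pool/Agent/H4/SX/RDX.lean`): `redB D`: `d, b, F', a0`, `Cc : CrvB (D (D+1)) d b F'`, `4 ≤ d`, `b ≤ H^(cR D)`,
`a0 ≠ 0`, `|a0| ≤ H`; `u = y + x^(D+1)`, `b^c ≤ |u|`, `|x| ≤ |u|^(2D+3)`; branch `i` and `T` with `((q T)^e) u = 1`,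
`evz T (Cc.pd.x i) = (a0 x)/u`, `pd.R ‖T‖ < 1`.
Constants: `N = D(D+1)`, `M = D+1`, `E1 = (N! M + M + 4)(N r + 1)`, `κ0 = 2 cR D + 2 + B`, `κ = (κ0 E1 + 1) N! (2D+3)`;
`K = H^κ0`. -/

namespace Pool.Agent.H56.GN

open Finset Polynomial Pool.Agent.H72.ES Pool.Agent.H87.SA2 Pool.Agent.H8.AW Pool.Agent.H52.AC
  Pool.Agent.H97.NW Pool.Agent.H34.AC Pool.Agent.H97.FB Pool.Agent.H97.XC

/-- the numerical condition -/
private theorem rdp_num {H κ0 E1 f e D E2 κ : ℕ} {K t u X δ : ℝ} (hH : 2 ≤ H) (hK : K = (H : ℝ) ^ κ0)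
    (hκ : κ = (κ0 * E1 + 1) * f * (2 * D + 3)) (he1 : 1 ≤ e) (hef : e ≤ f) (hE : E2 ≤ E1)
    (ht : 0 ≤ t) (hδ : 0 ≤ δ) (hu : t ^ e * u ≤ 1) (hu1 : 1 ≤ u) (hX : X ≤ u ^ (2 * D + 3))
    (hHX : (H : ℝ) ^ κ < X) (hHδ : δ * (H : ℝ) ^ κ < 1) : K ^ E2 * (t + δ) < 1 := by
  have hH1 : (1 : ℝ) ≤ H := by exact_mod_cast (by omega : 1 ≤ H)
  have hH2 : (2 : ℝ) ≤ H := by exact_mod_cast hH
  have hK1 : 1 ≤ K := by rw [hK]; exact one_le_pow₀ hH1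
  have hf1 : 1 ≤ f := he1.trans hef
  obtain ⟨A, hA⟩ : ∃ A : ℝ, A = (H : ℝ) ^ (κ0 * E1) := ⟨_, rfl⟩
  have hA1 : 1 ≤ A := by rw [hA]; exact one_le_pow₀ hH1
  have hKE : K ^ E2 ≤ A := by
    calc K ^ E2 ≤ K ^ E1 := pow_le_pow_right₀ hK1 hE
      _ = A := by rw [hA, hK, ← pow_mul]
  have h2A : 2 * A ≤ (H : ℝ) ^ (κ0 * E1 + 1) := by
    rw [pow_succ, ← hA]
    nlinarith
  have hle : κ0 * E1 + 1 ≤ κ := by
    rw [hκ, mul_assoc]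
    exact Nat.le_mul_of_pos_right _ (Nat.mul_pos hf1 (by omega))
  have hδ2 : 2 * A * δ < 1 := by
    calc 2 * A * δ ≤ (H : ℝ) ^ κ * δ :=
          mul_le_mul_of_nonneg_right (h2A.trans (pow_le_pow_right₀ hH1 hle)) hδ
      _ < 1 := by rwa [mul_comm]
  have ht2 : 2 * A * t < 1 := by
    obtain ⟨Y, hY⟩ : ∃ Y : ℝ, Y = (H : ℝ) ^ (κ0 * E1 + 1) := ⟨_, rfl⟩
    rw [← hY] at h2A
    have hY0 : 1 ≤ Y := by rw [hY]; exact one_le_pow₀ hH1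
    have h1 : (Y * t) ^ (e * (2 * D + 3)) < 1 := by
      have h2 : Y ^ (e * (2 * D + 3)) ≤ (H : ℝ) ^ κ := by
        rw [hY, ← pow_mul, hκ, mul_assoc]
        exact pow_le_pow_right₀ hH1 (Nat.mul_le_mul_left _ (Nat.mul_le_mul_right _ hef))
      have h3 : t ^ (e * (2 * D + 3)) * u ^ (2 * D + 3) ≤ 1 := by
        rw [pow_mul, ← mul_pow]
        exact pow_le_one₀ (mul_nonneg (pow_nonneg ht _) (by linarith)) hu
      rcases eq_or_lt_of_le (pow_nonneg ht (e * (2 * D + 3))) with h4 | h4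
      · rw [mul_pow, ← h4, mul_zero]
        exact one_pos
      · calc (Y * t) ^ (e * (2 * D + 3)) = Y ^ (e * (2 * D + 3)) * t ^ (e * (2 * D + 3)) := mul_pow _ _ _
          _ ≤ (H : ℝ) ^ κ * t ^ (e * (2 * D + 3)) := mul_le_mul_of_nonneg_right h2 h4.le
          _ < X * t ^ (e * (2 * D + 3)) := mul_lt_mul_of_pos_right hHX h4
          _ ≤ u ^ (2 * D + 3) * t ^ (e * (2 * D + 3)) := mul_le_mul_of_nonneg_right hX h4.le
          _ ≤ 1 := by rw [mul_comm]; exact h3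
    have h5 : Y * t < 1 := by
      by_contra hcon
      push Not at hcon
      exact absurd h1 (not_lt.2 (one_le_pow₀ hcon))
    calc 2 * A * t ≤ Y * t := mul_le_mul_of_nonneg_right h2A ht
      _ < 1 := h5
  have h6 : K ^ E2 * (t + δ) ≤ A * (t + δ) := mul_le_mul_of_nonneg_right hKE (by linarith)
  nlinarith

theorem redP (D r B : ℕ) (hD : 3 ≤ D) : ∃ κ : ℕ, ∀ c : ℕ, cA (D * (D + 1)) ≤ c →
    ∀ (g : ℤ[X]) (b0 : ℤ) (θ : ℝ), Tht r g b0 θ B → ∀ F : MvPolynomial (Fin 2) ℤ,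
    Irreducible (MvPolynomial.map (Int.castRingHom ℚ) F) → F.totalDegree ≤ D →
    (∃ m ∈ F.support, 1 ≤ m 1) → ∀ H : ℕ, 2 ≤ H → (∀ m, |F.coeff m| ≤ (H : ℤ)) → ∀ x y : ℤ,
    vl F x y = 0 → |y| ≤ |x| → H ^ (cR D * c * (2 * D + 3) + κ) < x.natAbs →
    |(y : ℝ) / x - θ| * (H : ℝ) ^ κ < 1 →
    ∃ P : Ptd (D * (D + 1)), P.Thr c ∧ (x.natAbs : ℝ) ≤ |(P.x : ℝ)| ^ (2 * D + 3) ∧
      ∀ (n : ℕ) (th : Fin n → ℂ), Rts g th → ∃ l0, Nonempty (LbG P (v1 th) l0) := by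
  obtain ⟨E1, hE1⟩ : ∃ E1 : ℕ, E1 = ((D * (D + 1)).factorial * (D + 1) + (D + 1) + 4) *
    (D * (D + 1) * r + 1) := ⟨_, rfl⟩
  obtain ⟨κ0, hκ0⟩ : ∃ κ0, κ0 = 2 * cR D + 2 + B := ⟨_, rfl⟩
  obtain ⟨κ, hκ⟩ : ∃ κ, κ = (κ0 * E1 + 1) * (D * (D + 1)).factorial * (2 * D + 3) := ⟨_, rfl⟩
  refine ⟨κ, fun c hc g b0 θ hTh F hF hdeg hy H hH2 hH x y h0 hyx hbig hsl => ?_⟩
  obtain ⟨d, b, F', a, ⟨Cc⟩, h4, hb, ha0, haH, hev⟩ := redB D hD F hF hdeg hy H hH2 hH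
  have hxm : y.natAbs ≤ x.natAbs := by
    rw [Int.abs_eq_natAbs, Int.abs_eq_natAbs] at hyx
    exact_mod_cast hyx
  obtain ⟨m, hm⟩ : ∃ m, m = x.natAbs := ⟨_, rfl⟩
  have hmm : max x.natAbs y.natAbs = m := by rw [hm]; exact max_eq_left hxm
  rw [← hm] at hbig
  have hbig1 : H ^ (cR D * c * (2 * D + 3)) < m :=
    lt_of_le_of_lt (Nat.pow_le_pow_right (by omega) (Nat.le_add_right _ _)) hbig
  have hbig2 : H ^ κ < m :=
    lt_of_le_of_lt (Nat.pow_le_pow_right (by omega) (Nat.le_add_left _ _)) hbig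
  have hN1 : 1 ≤ D * (D + 1) := Nat.mul_pos (by omega) (by omega)
  obtain ⟨hcA1, hcA2⟩ := H8.AF.cA_ge hN1
  have hb2 : 2 ≤ b := Cc.b2
  have hevZ : ev d F' (y + x ^ (D + 1)) (a * x) = 0 := by
    have h := hev ℤ x y
    have hc' : cst ℤ F' = F' := by
      funext i j
      simp [cst]
    rw [hc', h0, mul_zero] at h
    simpa using h
  have hHm : b ^ (c * (2 * D + 3)) < m := by
    calc b ^ (c * (2 * D + 3)) ≤ (H ^ cR D) ^ (c * (2 * D + 3)) :=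
          Nat.pow_le_pow_left hb _
      _ = H ^ (cR D * c * (2 * D + 3)) := by rw [← pow_mul, mul_assoc]
      _ < m := hbig1
  have hkey : ∀ V : ℤ, (b : ℤ) ^ (2 * (D * (D + 1)) + 1) ≤ V → |y + x ^ (D + 1)| ≤ V →
      (m : ℤ) ≤ V ^ (2 * D + 3) := by
    intro V hV hu
    obtain ⟨h1, h2⟩ := H8.AF.size_up (by omega) Cc.dn hb2 Cc.lead Cc.le ha0 hV hu hevZ
    rw [Int.abs_eq_natAbs] at h1
    rw [hm]
    exact h1
  have hbc : (b : ℤ) ^ (2 * (D * (D + 1)) + 1) ≤ (b : ℤ) ^ c :=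
    pow_le_pow_right₀ (by exact_mod_cast (by omega : 1 ≤ b)) (hcA1.trans hc)
  have hu : (b : ℤ) ^ c ≤ |y + x ^ (D + 1)| := by
    by_contra hcon
    push Not at hcon
    have h1 := hkey _ hbc hcon.le
    rw [← pow_mul] at h1
    have h2 : m ≤ b ^ (c * (2 * D + 3)) := by exact_mod_cast h1
    omega
  have hup : (m : ℤ) ≤ |y + x ^ (D + 1)| ^ (2 * D + 3) := hkey _ (hbc.trans hu) le_rfl
  have huR : (b : ℝ) ^ c ≤ |((y + x ^ (D + 1) : ℤ) : ℝ)| := by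
    have : ((b : ℤ) ^ c : ℤ) ≤ |y + x ^ (D + 1)| := hu
    exact_mod_cast this
  obtain ⟨i, T, hT, hTx, hi⟩ := Cc.pt h4 (hcA2.trans hc) hevZ huR
  have hupR : (m : ℝ) ≤ |((y + x ^ (D + 1) : ℤ) : ℝ)| ^ (2 * D + 3) := by
    have : ((m : ℤ) : ℝ) ≤ ((|y + x ^ (D + 1)| ^ (2 * D + 3) : ℤ) : ℝ) := by exact_mod_cast hup
    push_cast at this ⊢
    exact this
  have hx0 : x ≠ 0 := by
    rintro rfl
    rw [Int.natAbs_zero] at hm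
    omega
  -- the numbers
  have hHr : (2 : ℝ) ≤ H := by exact_mod_cast hH2
  have hH1r : (1 : ℝ) ≤ H := by linarith
  have hbr : (b : ℝ) ≤ (H : ℝ) ^ cR D := by exact_mod_cast hb
  have hR2 : (2 : ℝ) ≤ Cc.pd.R := Cc.pd.R_ge
  have hq1 : (1 : ℝ) ≤ Cc.pd.q := by exact_mod_cast Cc.pd.q_pos
  have hqb : (Cc.pd.q : ℝ) ≤ b := by exact_mod_cast Cc.q_le
  have haR : |(a : ℝ)| ≤ H := by
    have h1 : ((|a| : ℤ) : ℝ) ≤ ((H : ℤ) : ℝ) := by exact_mod_cast haH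
    simpa using h1
  have hK : 2 * (Cc.pd.q : ℝ) * Cc.pd.R * |(a : ℝ)| ≤ (H : ℝ) ^ κ0 := by
    have h1 : (Cc.pd.q : ℝ) * Cc.pd.R ≤ (H : ℝ) ^ cR D * (H : ℝ) ^ cR D :=
      mul_le_mul (hqb.trans hbr) (Cc.R_le.trans hbr) (by linarith) (by positivity)
    calc 2 * (Cc.pd.q : ℝ) * Cc.pd.R * |(a : ℝ)|
        = 2 * (Cc.pd.q * Cc.pd.R) * |(a : ℝ)| := by ring
      _ ≤ (H * ((H : ℝ) ^ cR D * (H : ℝ) ^ cR D)) * H := by
          refine mul_le_mul (mul_le_mul hHr h1 (by positivity) (by positivity)) haR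
            (abs_nonneg _) (by positivity)
      _ = (H : ℝ) ^ (2 * cR D + 2) := by ring
      _ ≤ (H : ℝ) ^ κ0 := pow_le_pow_right₀ hH1r (by omega)
  have hKB : 2 * (B : ℝ) ≤ (H : ℝ) ^ κ0 := by
    have h1 : 2 * B ≤ 2 ^ (B + 1) := by
      rw [pow_succ, mul_comm]
      exact Nat.mul_le_mul_right _ Nat.lt_two_pow_self.le
    have h2 : 2 ^ (B + 1) ≤ H ^ κ0 :=
      (Nat.pow_le_pow_left hH2 _).trans (Nat.pow_le_pow_right (by omega) (by omega))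
    exact_mod_cast h1.trans h2
  have hTn : ‖T‖ ^ Cc.pd.e * |((y + x ^ (D + 1) : ℤ) : ℝ)| ≤ 1 := by
    have h1 := congrArg norm hTx
    rw [norm_mul, norm_pow, norm_mul, Complex.norm_natCast, Complex.norm_intCast, norm_one] at h1
    rw [← h1]
    refine mul_le_mul_of_nonneg_right ?_ (abs_nonneg _)
    exact pow_le_pow_left₀ (norm_nonneg _) (le_mul_of_one_le_left (norm_nonneg _) hq1) _
  have hu1 : 1 ≤ |((y + x ^ (D + 1) : ℤ) : ℝ)| :=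
    (one_le_pow₀ (by exact_mod_cast (by omega : 1 ≤ b))).trans huR
  have hsm : ((H : ℝ) ^ κ0) ^ ((Cc.pd.e * (D + 1) + (D + 1) + 4) * (d * r + 1)) *
      (‖T‖ + |(y : ℝ) / x - θ|) < 1 := by
    have hef : Cc.pd.e ≤ (D * (D + 1)).factorial := Cc.e_le.trans (Nat.factorial_le Cc.dn)
    refine rdp_num (D := D) hH2 rfl hκ Cc.pd.e_pos hef ?_ (norm_nonneg _) (abs_nonneg _) hTn hu1
      hupR (by exact_mod_cast hbig2) hsl
    rw [hE1]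
    refine Nat.mul_le_mul ?_ ?_
    · have h1 : Cc.pd.e * (D + 1) ≤ (D * (D + 1)).factorial * (D + 1) := Nat.mul_le_mul_right _ hef
      omega
    · have h1 : d * r ≤ D * (D + 1) * r := Nat.mul_le_mul_right _ Cc.dn
      omega
  obtain ⟨o, h1, h2⟩ := cmp Cc.pd hTh (by omega : 1 ≤ D + 1) ha0 hK hKB (i := i) (T := T)
    (u := y + x ^ (D + 1)) (x := x) (y := y) rfl hx0 hTx hi le_rfl hsm
  -- the labels
  obtain ⟨ξ, hξ, hs, hinj⟩ := exists_xi Cc.pd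
  have hβA : (b0 : ℂ) * (θ : ℂ) ∈ AA := by
    rw [mem_algebraicClosure_iff]
    have h3 : IsIntegral ℤ ((b0 : ℂ) * (θ : ℂ)) := ⟨g, hTh.monic, hTh.root⟩
    exact (h3.tower_top (A := ℚ)).isAlgebraic
  obtain ⟨β, hβ⟩ : ∃ β : AA, (β : ℂ) = (b0 : ℂ) * (θ : ℂ) := ⟨⟨_, hβA⟩, rfl⟩
  rw [← hξ i] at h1 h2
  obtain ⟨S, τ, s1, s2, s3, s4⟩ := lab_pt Cc.pd hξ hs hinj g i β (by rw [hβ]; exact hTh.root)
    (fun σ ζ hζ hact => fxd hβ h1 h2 σ hζ hact)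
  refine ⟨⟨d, b, F', Cc, i, T, y + x ^ (D + 1), a * x, hevZ, hTx, hi⟩, huR,
    by rw [← hm]; exact hupR, ?_⟩
  intro n th hth
  exact lbg ⟨d, b, F', Cc, i, T, y + x ^ (D + 1), a * x, hevZ, hTx, hi⟩ s1 s2 s3 s4 hth

end Pool.Agent.H56.GN
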