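import Pool.Agent.H56.GN.Defs
import Pool.Agent.H34.AC.Defs

/-! # [H56 GN ROT] The isomorphism `rt : ℤ[t][x][y] → ℤ[x, y][t]`

`rt_coeff`: both sides are additive in `F`; `Polynomial.induction_on'` three times, for `F = monomial b (monomial a (monomial j c))`
`rt F = C (MvPolynomial.C c * X 0 ^ a * X 1 ^ b) * X ^ j` (`Polynomial.eval₂_monomial`), `coeff_C_mul_X_pow`, `MvPolynomial.coeff_monomial` (the exponents
`single 0 a + single 1 b` determine `a, b`: evaluate at `0` and `1`), `coeff_monomial` on the right.
`rt_bij`: injective: if `rt F = 0` all `cf3 F j a b` are `0` by `rt_coeff`, so `F = 0` (`injective_iff_map_eq_zero`). Surjective: the range of `rt` is a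
subring; it contains `X = rt (C (C X))`, `C (X 0) = rt (C X)`, `C (X 1) = rt X`, the integers; `Polynomial.induction_on` and
`MvPolynomial.induction_on` for the coefficients.
`rt_eval`: two ring homs `ℤ[X][X][X] →+* ℤ`: `F ↦ vl ((rt F).eval (MvPolynomial.C a)) x y` (`vl G x y = MvPolynomial.eval₂ (Int.castRingHom ℤ) ![x, y] G`, a ring
hom in `G`) and `ev3 a x y = eval₂RingHom (eval₂RingHom (eval₂RingHom _ a) x) y`: `Polynomial.ringHom_ext'` three times, they agree on
`X`, `C X`, `C (C X)`.
`rt_C`: `rt (C G)` has degree in `t` at least that of every coefficient of `G` (`rt_coeff` with `b = 0`). -/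

namespace Pool.Agent.H56.GN

open Finset Polynomial Pool.Agent.H37.TE Pool.Agent.H98.TE Pool.Agent.H4.TP Pool.Agent.H34.AC

private theorem rt_X : rt (X : ℤ[X][X][X]) = C (MvPolynomial.X 1) := by
  unfold rt
  rw [coe_eval₂RingHom, eval₂_X]

private theorem rt_CX : rt (C (X : ℤ[X][X])) = C (MvPolynomial.X 0) := by
  unfold rt
  rw [coe_eval₂RingHom, eval₂_C, coe_eval₂RingHom, eval₂_X]

private theorem rt_CCX : rt (C (C (X : ℤ[X]))) = X := by
  unfold rt
  rw [coe_eval₂RingHom, eval₂_C, coe_eval₂RingHom, eval₂_C, coe_eval₂RingHom, eval₂_X]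

private theorem rt_CCC (c : ℤ) : rt (C (C (C c : ℤ[X]))) = C (MvPolynomial.C c) := by
  unfold rt
  rw [coe_eval₂RingHom, eval₂_C, coe_eval₂RingHom, eval₂_C, coe_eval₂RingHom, eval₂_C]
  simp

private theorem rt_mono (c : ℤ) (j a b : ℕ) :
    rt (monomial b (monomial a (monomial j c))) =
      C (MvPolynomial.monomial (Finsupp.single 0 a + Finsupp.single 1 b) c) * X ^ j := by
  have e : (monomial b (monomial a (monomial j c)) : ℤ[X][X][X]) =
      C (C (C c)) * (C (C X)) ^ j * (C X) ^ a * X ^ b := by
    rw [← C_mul_X_pow_eq_monomial, ← C_mul_X_pow_eq_monomial, ← C_mul_X_pow_eq_monomial]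
    simp only [map_mul, map_pow]
  rw [e, map_mul, map_mul, map_mul, map_pow, map_pow, map_pow, rt_X, rt_CX, rt_CCX, rt_CCC]
  have e2 : (MvPolynomial.monomial (Finsupp.single 0 a + Finsupp.single 1 b) c :
      MvPolynomial (Fin 2) ℤ) = MvPolynomial.C c * MvPolynomial.X 0 ^ a * MvPolynomial.X 1 ^ b := by
    rw [MvPolynomial.monomial_eq, Finsupp.prod_add_index', Finsupp.prod_single_index,
      Finsupp.prod_single_index]
    · ring
    · simp
    · simp
    · simp
    · intros
      rw [pow_add]
  rw [e2]
  simp only [map_mul, map_pow]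
  ring

theorem rt_coeff (F : ℤ[X][X][X]) (j a b : ℕ) :
    ((rt F).coeff j).coeff (Finsupp.single 0 a + Finsupp.single 1 b) = cf3 F j a b := by
  unfold cf3
  induction F using Polynomial.induction_on' with
  | add p q hp hq => rw [map_add, coeff_add, MvPolynomial.coeff_add, hp, hq, coeff_add, coeff_add,
      coeff_add]
  | monomial b' p =>
    induction p using Polynomial.induction_on' with
    | add p q hp hq =>
      rw [map_add, map_add, coeff_add, MvPolynomial.coeff_add, hp, hq, coeff_add, coeff_add,
        coeff_add]
    | monomial a' p =>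
      induction p using Polynomial.induction_on' with
      | add p q hp hq =>
        rw [map_add, map_add, map_add, coeff_add, MvPolynomial.coeff_add, hp, hq, coeff_add,
          coeff_add, coeff_add]
      | monomial j' c =>
        rw [rt_mono, coeff_C_mul_X_pow, coeff_monomial]
        have hinj : (Finsupp.single (0 : Fin 2) a' + Finsupp.single 1 b' =
            Finsupp.single 0 a + Finsupp.single 1 b) ↔ (a' = a ∧ b' = b) := by
          constructor
          · intro h
            have h0 := DFunLike.congr_fun h 0
            have h1 := DFunLike.congr_fun h 1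
            simp at h0 h1
            exact ⟨h0, h1⟩
          · rintro ⟨rfl, rfl⟩
            rfl
        by_cases hb : b' = b
        · rw [if_pos hb, coeff_monomial]
          by_cases ha : a' = a
          · rw [if_pos ha, coeff_monomial]
            by_cases hj : j' = j
            · rw [if_pos hj, if_pos hj.symm, MvPolynomial.coeff_monomial,
                if_pos (hinj.2 ⟨ha, hb⟩)]
            · rw [if_neg hj, if_neg (fun h => hj h.symm), MvPolynomial.coeff_zero]
          · rw [if_neg ha, coeff_zero]
            split_ifs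
            · rw [MvPolynomial.coeff_monomial, if_neg (fun h => ha (hinj.1 h).1)]
            · rw [MvPolynomial.coeff_zero]
        · rw [if_neg hb, coeff_zero, coeff_zero]
          split_ifs
          · rw [MvPolynomial.coeff_monomial, if_neg (fun h => hb (hinj.1 h).2)]
          · rw [MvPolynomial.coeff_zero]

theorem rt_bij : Function.Bijective rt := by
  constructor
  · rw [injective_iff_map_eq_zero]
    intro F hF
    ext b a j
    have h := rt_coeff F j a b
    rw [hF, coeff_zero, MvPolynomial.coeff_zero] at h
    simp only [coeff_zero]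
    exact h.symm
  · intro G
    have hC : ∀ p : MvPolynomial (Fin 2) ℤ, C p ∈ rt.rangeS := by
      intro p
      induction p using MvPolynomial.induction_on with
      | C c => exact ⟨_, rt_CCC c⟩
      | add p q hp hq =>
        rw [C_add]
        exact rt.rangeS.add_mem hp hq
      | mul_X p i hp =>
        rw [C_mul]
        refine rt.rangeS.mul_mem hp ?_
        fin_cases i
        · exact ⟨_, rt_CX⟩
        · exact ⟨_, rt_X⟩
    have hG : G ∈ rt.rangeS := by
      induction G using Polynomial.induction_on with
      | C p => exact hC p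
      | add p q hp hq => exact rt.rangeS.add_mem hp hq
      | monomial n p hp =>
        exact rt.rangeS.mul_mem (hC p) (rt.rangeS.pow_mem ⟨_, rt_CCX⟩ _)
    exact hG

theorem rt_eval (F : ℤ[X][X][X]) (a x y : ℤ) :
    vl ((rt F).eval (MvPolynomial.C a)) x y = ev3 a x y F := by
  have key : ((MvPolynomial.eval₂Hom (Int.castRingHom ℤ) ![x, y]).comp
      (evalRingHom (MvPolynomial.C a))).comp rt =
      eval₂RingHom (eval₂RingHom (eval₂RingHom (Int.castRingHom ℤ) a) x) y := by
    refine Polynomial.ringHom_ext' (Polynomial.ringHom_ext' (Polynomial.ringHom_ext' ?_ ?_) ?_) ?_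
    · exact Subsingleton.elim _ _
    · simp only [RingHom.coe_comp, Function.comp_apply, rt_CCX]
      simp
    · simp only [RingHom.coe_comp, Function.comp_apply, rt_CX]
      simp
    · simp only [RingHom.coe_comp, Function.comp_apply, rt_X]
      simp
  exact DFunLike.congr_fun key F

theorem rt_C (G : ℤ[X][X]) (i : ℕ) : (G.coeff i).natDegree ≤ (rt (C G)).natDegree := by
  by_cases h : (G.coeff i) = 0
  · rw [h, natDegree_zero]
    exact Nat.zero_le _
  · refine le_natDegree_of_ne_zero fun h0 => ?_
    have h1 := rt_coeff (C G) (G.coeff i).natDegree i 0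
    rw [h0, MvPolynomial.coeff_zero] at h1
    unfold cf3 at h1
    rw [coeff_C_zero] at h1
    exact h (leadingCoeff_eq_zero.1 h1.symm)

end Pool.Agent.H56.GN
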