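import Pool.Agent.H56.GN.ROT
import Pool.Agent.H97.XU.SZA

/-! # [H56 GN RSZ] Degrees and sizes

`L1` = sum of the absolute values of the coefficients (`Pool/Agent/H97/XU/Defs.lean`; `L1_sum, L1_mul, L1_neg, L1_zero, L1_eq` in `SZA.lean`).
`rt_sz`: every exponent `e : Fin 2 →₀ ℕ` is `single 0 (e 0) + single 1 (e 1)`, so by `rt_coeff` the coefficient is `cf3 F j (e 0) (e 1)`, zero if
`e 0 + e 1 > n` (`hF.tot`) or `j > m` (`hF.deg`, `coeff_eq_zero_of_natDegree_lt`). Degree in `t`: `natDegree_le_iff_coeff_eq_zero`, `MvPolynomial.ext`.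
`totalDegree ≤ n`: `MvPolynomial.totalDegree_le_iff` / `Finset.sup_le` on the support, `Finsupp.sum_fintype`, `Fin.sum_univ_two`. `L1 ≤ (n+1)^2 B`: the support is
contained in the image of `range (n+1) ×ˢ range (n+1)` (as `fcx_l1` in `Pool/Agent/H4/SX/FCX.lean`), each term at most `B`.
`res_sz`: `resultant f g = (sylvester f g f.natDegree g.natDegree).det`, entries coefficients of `f` or `g` or `0` (as `bd_res` in
`Pool/Agent/H37/TE/Elm.lean`), `Matrix.det_apply`: as the private `bez_det` in `Pool/Agent/H97/XU/BEZ.lean` (there for `Fin 4`; copy with `Fin 2`): total degree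
`≤ (f.natDegree + g.natDegree) d`, `L1 ≤ N0! S^N0`, `N0 = f.natDegree + g.natDegree ≤ N`, `S ≥ 1`. -/

namespace Pool.Agent.H56.GN

open Finset Polynomial Pool.Agent.H37.TE Pool.Agent.H98.TE Pool.Agent.H4.TP Pool.Agent.H34.AC
  Pool.Agent.H97.XU

private theorem rsz_exp (e : Fin 2 →₀ ℕ) : Finsupp.single 0 (e 0) + Finsupp.single 1 (e 1) = e := by
  ext v
  fin_cases v <;> simp

private theorem rsz_cf {n m : ℕ} {F : ℤ[X][X][X]} (hF : DegF n m F) (j : ℕ) (e : Fin 2 →₀ ℕ)
    (h : ((rt F).coeff j).coeff e ≠ 0) : j ≤ m ∧ e 0 + e 1 ≤ n := by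
  have h1 := rt_coeff F j (e 0) (e 1)
  rw [rsz_exp] at h1
  rw [h1] at h
  unfold cf3 at h
  constructor
  · by_contra hj
    exact h (coeff_eq_zero_of_natDegree_lt (lt_of_le_of_lt (hF.deg (e 0) (e 1)) (by omega)))
  · by_contra hj
    rw [hF.tot (e 0) (e 1) (by omega), coeff_zero] at h
    exact h rfl

theorem rt_sz {n m B : ℕ} {F : ℤ[X][X][X]} (hF : DegF n m F) (hB : ∀ j a b, |cf3 F j a b| ≤ (B : ℤ)) :
    (rt F).natDegree ≤ m ∧ ∀ j, ((rt F).coeff j).totalDegree ≤ n ∧
      L1 ((rt F).coeff j) ≤ (n + 1) ^ 2 * B := by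
  classical
  refine ⟨?_, fun j => ⟨?_, ?_⟩⟩
  · rw [natDegree_le_iff_coeff_eq_zero]
    intro j hj
    ext e
    rw [MvPolynomial.coeff_zero]
    by_contra h
    have := (rsz_cf hF j e h).1
    omega
  · rw [MvPolynomial.totalDegree]
    refine Finset.sup_le fun e he => ?_
    rw [MvPolynomial.mem_support_iff] at he
    have h1 := (rsz_cf hF j e he).2
    rw [Finsupp.sum_fintype _ _ (fun _ => rfl), Fin.sum_univ_two]
    exact h1
  · unfold L1
    have h1 : ((rt F).coeff j).support ⊆ (range (n + 1) ×ˢ range (n + 1)).image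
        (fun x => (Finsupp.single 0 x.1 + Finsupp.single 1 x.2 : Fin 2 →₀ ℕ)) := by
      intro e he
      rw [MvPolynomial.mem_support_iff] at he
      have h2 := (rsz_cf hF j e he).2
      rw [mem_image]
      refine ⟨(e 0, e 1), ?_, rsz_exp e⟩
      rw [mem_product, mem_range, mem_range]
      constructor <;> simp only <;> omega
    have h2 : ((rt F).coeff j).support.card ≤ (n + 1) ^ 2 := by
      refine (card_le_card h1).trans (card_image_le.trans ?_)
      rw [card_product, card_range, sq]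
    calc ∑ e ∈ ((rt F).coeff j).support, (((rt F).coeff j).coeff e).natAbs
        ≤ ∑ e ∈ ((rt F).coeff j).support, B := by
          refine sum_le_sum fun e _ => ?_
          have h3 := rt_coeff F j (e 0) (e 1)
          rw [rsz_exp] at h3
          have h4 := hB j (e 0) (e 1)
          rw [← h3, Int.abs_eq_natAbs] at h4
          exact_mod_cast h4
      _ = ((rt F).coeff j).support.card * B := by rw [sum_const, smul_eq_mul]
      _ ≤ (n + 1) ^ 2 * B := Nat.mul_le_mul_right _ h2

private theorem rsz_L1_one : L1 (1 : MvPolynomial (Fin 2) ℤ) = 1 := by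
  have h := L1_C (r := 2) (1 : ℤ)
  rwa [MvPolynomial.C_1] at h

private theorem rsz_L1_prod {ι : Type*} (t : Finset ι) (f : ι → MvPolynomial (Fin 2) ℤ) {S : ℕ}
    (h : ∀ i ∈ t, L1 (f i) ≤ S) : L1 (∏ i ∈ t, f i) ≤ S ^ t.card := by
  classical
  induction t using Finset.induction_on with
  | empty => simp [rsz_L1_one]
  | insert a s ha ih =>
    rw [prod_insert ha, card_insert_of_notMem ha, pow_succ, mul_comm (S ^ _)]
    exact (L1_mul _ _).trans (Nat.mul_le_mul (h a (mem_insert_self a s))
      (ih fun i hi => h i (mem_insert_of_mem hi)))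

private theorem rsz_det {N d S : ℕ} (M : Matrix (Fin N) (Fin N) (MvPolynomial (Fin 2) ℤ))
    (hd : ∀ i j, (M i j).totalDegree ≤ d) (hL : ∀ i j, L1 (M i j) ≤ S) :
    M.det.totalDegree ≤ N * d ∧ L1 M.det ≤ N.factorial * S ^ N := by
  rw [Matrix.det_apply]
  constructor
  · refine (MvPolynomial.totalDegree_finsetSum _ _).trans (Finset.sup_le fun σ _ => ?_)
    have h1 : (Equiv.Perm.sign σ • ∏ i, M (σ i) i).totalDegree = (∏ i, M (σ i) i).totalDegree := by
      rcases Int.units_eq_one_or (Equiv.Perm.sign σ) with h | h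
      · rw [h, one_smul]
      · rw [h]
        simp
    rw [h1]
    refine (MvPolynomial.totalDegree_finsetProd _ _).trans ((Finset.sum_le_sum fun i _ => hd (σ i) i).trans ?_)
    simp
  · refine (L1_sum _ _).trans ?_
    have h1 : ∀ σ ∈ (univ : Finset (Equiv.Perm (Fin N))), L1 (Equiv.Perm.sign σ • ∏ i, M (σ i) i) ≤ S ^ N := by
      intro σ _
      have h2 : L1 (Equiv.Perm.sign σ • ∏ i, M (σ i) i) = L1 (∏ i, M (σ i) i) := by
        rcases Int.units_eq_one_or (Equiv.Perm.sign σ) with h | h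
        · rw [h, one_smul]
        · rw [h]
          simp [L1_neg]
      rw [h2]
      have h3 := rsz_L1_prod univ (fun i => M (σ i) i) (S := S) fun i _ => hL (σ i) i
      simpa using h3
    refine (Finset.sum_le_sum h1).trans ?_
    rw [sum_const, smul_eq_mul, card_univ, Fintype.card_perm, Fintype.card_fin]

theorem res_sz {f g : (MvPolynomial (Fin 2) ℤ)[X]} {N d S : ℕ}
    (hN : f.natDegree + g.natDegree ≤ N) (hS : 1 ≤ S)
    (hf : ∀ j, (f.coeff j).totalDegree ≤ d ∧ L1 (f.coeff j) ≤ S)
    (hg : ∀ j, (g.coeff j).totalDegree ≤ d ∧ L1 (g.coeff j) ≤ S) :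
    (resultant f g).totalDegree ≤ N * d ∧ L1 (resultant f g) ≤ N.factorial * S ^ N := by
  have hent : ∀ i j, (sylvester f g f.natDegree g.natDegree i j).totalDegree ≤ d ∧
      L1 (sylvester f g f.natDegree g.natDegree i j) ≤ S := by
    intro i j
    have h0 : (0 : MvPolynomial (Fin 2) ℤ).totalDegree ≤ d ∧ L1 (0 : MvPolynomial (Fin 2) ℤ) ≤ S := by
      refine ⟨?_, ?_⟩
      · rw [MvPolynomial.totalDegree_zero]
        exact Nat.zero_le _
      · rw [L1_zero]
        exact Nat.zero_le _
    unfold sylvester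
    rw [Matrix.of_apply]
    induction j using Fin.addCases with
    | left j =>
      rw [Fin.addCases_left]
      split_ifs
      · exact hg _
      · exact h0
    | right j =>
      rw [Fin.addCases_right]
      split_ifs
      · exact hf _
      · exact h0
  have h1 := rsz_det (sylvester f g f.natDegree g.natDegree) (fun i j => (hent i j).1)
    (fun i j => (hent i j).2)
  refine ⟨h1.1.trans (Nat.mul_le_mul_right _ hN), h1.2.trans ?_⟩
  exact Nat.mul_le_mul (Nat.factorial_le hN) (Nat.pow_le_pow_right hS hN)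

end Pool.Agent.H56.GN
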